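import Pool.Agent.H82.CO.Main

set_option autoImplicit false

/-!
# The bounds for `N ≥ 6`
-/

namespace Pool.Agent.H82.CO

theorem arith_P {n P k : ℝ} (hn : 2 ≤ n) (hk : 0 ≤ k) (hP : 52 ≤ P) :
    0 < 2 + 3 * P / 2 + P ^ 2 / 12 - P * n / 6 + 17 * n ^ 2 / 96 - 6 * n +
        k * n * (P / 12 + n / 6 - 2) := by
  have h1 : 0 ≤ k * n * (P / 12 + n / 6 - 2) :=
    mul_nonneg (mul_nonneg hk (by linarith)) (by linarith)
  nlinarith [sq_nonneg (17 * n - 8 * P - 288), mul_nonneg (sub_nonneg.2 hP) (sub_nonneg.2 hP)]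

theorem arith_P' {n P k : ℝ} (hn : 2 ≤ n) (hk : 1 ≤ k) (hP : 22 ≤ P) :
    0 < 2 + 3 * P / 2 + P ^ 2 / 12 - P * n / 6 + 17 * n ^ 2 / 96 - 6 * n +
        k * n * (P / 12 + n / 6 - 2) := by
  have h1 : 0 ≤ (k - 1) * n * (P / 12 + n / 6 - 2) :=
    mul_nonneg (mul_nonneg (by linarith) (by linarith)) (by linarith)
  nlinarith [sq_nonneg (33 * n - 4 * P - 384), mul_nonneg (sub_nonneg.2 hP) (sub_nonneg.2 hP)]

theorem arith_n {n P k : ℝ} (hn : 2 ≤ n) (hk : 0 ≤ k) (hP : n * (k + 2) / 2 ≤ P) :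
    2 - n * (5 * (k + 2) / 4 + 2) + n ^ 2 * ((k + 2) ^ 2 / 16 - 5 / 32) ≤
      2 + 3 * P / 2 + P ^ 2 / 12 - P * n / 6 + 17 * n ^ 2 / 96 - 6 * n +
        k * n * (P / 12 + n / 6 - 2) := by
  obtain ⟨e, he⟩ : ∃ e, e = P - n * (k + 2) / 2 := ⟨_, rfl⟩
  have he0 : 0 ≤ e := by linarith
  have hPe : P = n * (k + 2) / 2 + e := by linarith
  subst hPe
  have h1 : 0 ≤ e * (3 / 2 + (2 * n * k + e) / 12) :=
    mul_nonneg he0 (by have : 0 ≤ n * k := mul_nonneg (by linarith) hk; linarith)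
  nlinarith [h1]

variable {G : Type} [Group G] [Fintype G] {N : ℕ}

theorem bounds (s : Fin N → G) (hs : ∀ i, s i ≠ 1) (hN : 6 ≤ N)
    (hd : (quadInv s).re ≤ (N : ℝ) - 3) :
    N ≤ 14 ∧ Nat.card G ≤ 47 ∧ genus s < 27 ∧ (7 ≤ N → Nat.card G ≤ 13 ∧ genus s < 12) := by
  obtain ⟨n, P, k, hn, hP, hk, hn2, hPn, h⟩ := ineq_P s hs hN
  have hN' : (6 : ℝ) ≤ N := by exact_mod_cast hN
  have hk0 : 0 ≤ k := by linarith
  have h0 : 2 * n * ((quadInv s).re - (N - 3)) ≤ 0 :=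
    mul_nonpos_of_nonneg_of_nonpos (by linarith) (by linarith)
  have hE := h.trans h0
  have hA := (arith_n hn2 hk0 hPn).trans hE
  have hyk : k + 2 = N - 4 := by linarith
  rw [hyk] at hA
  refine ⟨?_, ?_, ?_, ?_⟩
  · by_contra hlt
    have h15 : (15 : ℝ) ≤ N := by exact_mod_cast (by omega : 15 ≤ N)
    obtain ⟨y, hy⟩ : ∃ y : ℝ, y = N - 4 := ⟨_, rfl⟩
    rw [← hy] at hA
    have hy11 : 11 ≤ y := by linarith
    nlinarith [mul_nonneg (sub_nonneg.2 hn2) (sub_nonneg.2 hy11),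
      mul_nonneg (mul_nonneg (sub_nonneg.2 hn2) (sub_nonneg.2 hn2)) (sq_nonneg y),
      mul_nonneg (mul_nonneg (sub_nonneg.2 hn2) (sub_nonneg.2 hy11)) (sub_nonneg.2 hy11),
      mul_nonneg (mul_nonneg (sub_nonneg.2 hn2) (sub_nonneg.2 hn2)) (sub_nonneg.2 hy11),
      mul_nonneg (sub_nonneg.2 hy11) (sub_nonneg.2 hy11),
      mul_nonneg (sub_nonneg.2 hn2) (sub_nonneg.2 hn2)]
  · by_contra hlt
    have h48 : (48 : ℝ) ≤ n := by rw [hn]; exact_mod_cast (by omega : 48 ≤ Nat.card G)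
    obtain ⟨y, hy⟩ : ∃ y : ℝ, y = N - 4 := ⟨_, rfl⟩
    rw [← hy] at hA
    have hy2 : 2 ≤ y := by linarith
    have h1 : 0 ≤ n * (n - 48) * (2 * y ^ 2 - 5) :=
      mul_nonneg (mul_nonneg (by linarith) (by linarith)) (by nlinarith)
    have h2 : 0 ≤ n * (96 * y ^ 2 - 40 * y - 304) := mul_nonneg (by linarith) (by nlinarith)
    nlinarith [h1, h2]
  · by_contra hlt
    have h52 : 52 ≤ P := by rw [hP]; linarith
    have := arith_P hn2 hk0 h52
    linarith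
  · intro h7
    have h7' : (7 : ℝ) ≤ N := by exact_mod_cast h7
    refine ⟨?_, ?_⟩
    · by_contra hlt
      have h14 : (14 : ℝ) ≤ n := by rw [hn]; exact_mod_cast (by omega : 14 ≤ Nat.card G)
      obtain ⟨y, hy⟩ : ∃ y : ℝ, y = N - 4 := ⟨_, rfl⟩
      rw [← hy] at hA
      have hy3 : 3 ≤ y := by linarith
      have h1 : 0 ≤ n * (n - 14) * (2 * y ^ 2 - 18) :=
        mul_nonneg (mul_nonneg (by linarith) (by linarith)) (by nlinarith)
      have h2 : 0 ≤ n * (y - 3) * (28 * y + 44) :=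
        mul_nonneg (mul_nonneg (by linarith) (by linarith)) (by linarith)
      have h3 : 0 < 13 * n ^ 2 - 184 * n + 64 := by nlinarith
      nlinarith [h1, h2, h3]
    · by_contra hlt
      have h22 : 22 ≤ P := by rw [hP]; linarith
      have := arith_P' hn2 (by linarith : (1 : ℝ) ≤ k) h22
      linarith

end Pool.Agent.H82.CO
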