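import Pool.Agent.H82.CO.Main

set_option autoImplicit false

/-!
# The sum of `chi (g ^ 2)` for groups of odd order and for abelian groups

For odd order squaring is a bijection and the sum of the values of `chi` is zero. For abelian `G`,
with `t` elements of square `1` and `j` of the `s i` not a square, the sum is `n + n t (j / 4 - 1)`,
and `t ≤ 2 ^ j` as `G` modulo squares is generated by the classes of these `s i`.
-/

namespace Pool.Agent.H82.CO

open Finset ComplexConjugate

variable {G : Type} [Group G] [Fintype G] {N : ℕ}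

theorem sum_eps {m : ℕ} (hm : 0 < m) : ∑ k ∈ range m, eps m k = 0 := by
  unfold eps
  rw [sum_comm]
  refine sum_eq_zero fun a ha => ?_
  rw [← mul_sum]
  have h1 := ortho hm (mem_range.1 ha) hm
  simp only [zero_mul, pow_zero, map_one, mul_one] at h1
  rw [h1]
  split_ifs with h
  · rw [h]
    simp
  · rw [mul_zero]

theorem sum_chi (s : Fin N → G) : ∑ g : G, chi s g = 0 := by
  classical
  unfold chi
  rw [sum_add_distrib, sum_sub_distrib]
  have h1 : ∑ g : G, ∑ i, (1 / (orderOf (s i) : ℂ)) * ∑ x : G, ∑ k ∈ range (orderOf (s i)),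
      (if x * s i ^ k * x⁻¹ = g then eps (orderOf (s i)) k else 0) = 0 := by
    rw [sum_comm]
    refine sum_eq_zero fun i _ => ?_
    rw [← mul_sum, sum_comm]
    have h2 : ∀ x : G, ∑ g : G, ∑ k ∈ range (orderOf (s i)),
        (if x * s i ^ k * x⁻¹ = g then eps (orderOf (s i)) k else 0) = 0 := by
      intro x
      refine Eq.trans ?_ (sum_eps (orderOf_pos (s i)))
      rw [sum_comm]
      refine sum_congr rfl fun k _ => ?_
      rw [sum_ite_eq, if_pos (mem_univ _)]
    rw [sum_congr rfl fun x _ => h2 x, sum_const_zero, mul_zero]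
  rw [h1, sum_ite_eq', if_pos (mem_univ _)]
  simp

theorem fs_odd (s : Fin N → G) (ho : Odd (Nat.card G)) : ∑ g : G, (chi s (g ^ 2)).re = 0 := by
  have hc : (Nat.card G).Coprime 2 := ho.coprime_two_right
  have h1 : ∑ g : G, (chi s (g ^ 2)).re = ∑ g : G, (chi s g).re :=
    Equiv.sum_comp (powCoprime hc) fun g => (chi s g).re
  rw [h1, ← Complex.re_sum, sum_chi, Complex.zero_re]

theorem rt_sq_comm (hc : ∀ a b : G, a * b = b * a) (g : G) : rt (g ^ 2) = rt (1 : G) := by
  classical
  rw [rt, rt]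
  refine Fintype.sum_equiv (Equiv.mulRight g⁻¹) _ _ fun u => ?_
  have h2 : u ^ 2 = g ^ 2 ↔ (Equiv.mulRight g⁻¹ u) ^ 2 = 1 := by
    rw [Equiv.coe_mulRight, (show Commute u g⁻¹ from hc u g⁻¹).mul_pow, inv_pow, mul_inv_eq_one]
  simp only [h2]

theorem rt_of_not_sq {g : G} (h : ¬ ∃ y : G, y ^ 2 = g) : rt g = 0 := by
  classical
  rw [rt]
  exact sum_eq_zero fun u _ => if_neg fun hu => h ⟨u, hu⟩

theorem sum_rt : ∑ g : G, rt g = (Nat.card G : ℝ) := by
  have h1 := sum_comp_sq (G := G) fun _ => 1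
  simp only [mul_one, sum_const, card_univ, nsmul_eq_mul] at h1
  rw [← h1, Nat.card_eq_fintype_card]

theorem sum_range_two_mul (f : ℕ → ℝ) (q : ℕ) :
    ∑ k ∈ range (2 * q), f k = ∑ j ∈ range q, (f (2 * j) + f (2 * j + 1)) := by
  induction q with
  | zero => simp
  | succ q ih =>
    rw [sum_range_succ, ← ih, mul_add, mul_one, sum_range_succ, sum_range_succ]
    ring

open Classical in
theorem sum_rt_eps (hc : ∀ a b : G, a * b = b * a) (a : G) :
    ∑ k ∈ range (orderOf a), rt (a ^ k) * (eps (orderOf a) k).re =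
      (orderOf a : ℝ) / 4 * rt (1 : G) * (if (∃ y : G, y ^ 2 = a) then 0 else 1) := by
  classical
  have hm := orderOf_pos a
  have h1 : ∀ k ∈ range (orderOf a), rt (a ^ k) * (eps (orderOf a) k).re =
      -1 / 2 * rt (a ^ k) + if k = 0 then (orderOf a : ℝ) / 2 * rt (1 : G) else 0 := by
    intro k hk
    split_ifs with h
    · subst h
      rw [eps_zero hm, Complex.ofReal_re, pow_zero]
      ring
    · rw [re_eps (Nat.pos_of_ne_zero h) (mem_range.1 hk)]
      ring
  rw [sum_congr rfl h1, sum_add_distrib, ← mul_sum, sum_ite_eq', if_pos (mem_range.2 hm)]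
  by_cases hs : ∃ y : G, y ^ 2 = a
  · obtain ⟨y, hy⟩ := hs
    have h2 : ∀ k, rt (a ^ k) = rt (1 : G) := by
      intro k
      rw [← hy, ← pow_mul, mul_comm, pow_mul, rt_sq_comm hc]
    rw [if_pos ⟨y, hy⟩, sum_congr rfl fun k _ => h2 k, sum_const, card_range, nsmul_eq_mul]
    ring
  · rw [if_neg hs]
    have hodd : ∀ j, rt (a ^ (2 * j + 1)) = 0 := by
      intro j
      refine rt_of_not_sq ?_
      rintro ⟨y, hy⟩
      apply hs
      refine ⟨y * (a ^ j)⁻¹, ?_⟩
      rw [(show Commute y (a ^ j)⁻¹ from hc _ _).mul_pow, hy, inv_pow, ← pow_mul, mul_comm j 2,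
        pow_succ', mul_inv_cancel_right]
    have heven : ∀ j, rt (a ^ (2 * j)) = rt (1 : G) := by
      intro j
      rw [mul_comm, pow_mul, rt_sq_comm hc]
    have h2 : ∃ q, orderOf a = 2 * q := by
      rcases Nat.even_or_odd' (orderOf a) with ⟨q, hq | hq⟩
      · exact ⟨q, hq⟩
      · exfalso
        apply hs
        refine ⟨a ^ (q + 1), ?_⟩
        rw [← pow_mul, (by ring : (q + 1) * 2 = (2 * q + 1) + 1), pow_succ, ← hq,
          pow_orderOf_eq_one, one_mul]
    obtain ⟨q, hq⟩ := h2
    have h3 : ∑ k ∈ range (orderOf a), rt (a ^ k) = q * rt (1 : G) := by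
      rw [hq, sum_range_two_mul, sum_congr rfl fun j _ => by rw [hodd, heven, add_zero], sum_const,
        card_range, nsmul_eq_mul]
    rw [h3, hq]
    push_cast
    ring

open Classical in
theorem fs_comm_eq (s : Fin N → G) (hc : ∀ a b : G, a * b = b * a) :
    ∑ g : G, (chi s (g ^ 2)).re = (Nat.card G : ℝ) - Nat.card G * rt (1 : G) +
      (Nat.card G : ℝ) * rt (1 : G) / 4 *
        ∑ i, (if (∃ y : G, y ^ 2 = s i) then (0 : ℝ) else 1) := by
  classical
  rw [sum_comp_sq fun g => (chi s g).re]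
  have h1 : ∀ g : G, (chi s g).re = 1 - (if g = 1 then (Nat.card G : ℝ) else 0) +
      ∑ i, (Nat.card G : ℝ) / orderOf (s i) * ∑ k ∈ range (orderOf (s i)),
        (if s i ^ k = g then (eps (orderOf (s i)) k).re else 0) := by
    intro g
    have h2 : chi s g = 1 - (((if g = 1 then (Nat.card G : ℝ) else 0) : ℝ) : ℂ) +
        ∑ i, (((Nat.card G : ℝ) / orderOf (s i) : ℝ) : ℂ) * ∑ k ∈ range (orderOf (s i)),
          (if s i ^ k = g then eps (orderOf (s i)) k else 0) := by
      unfold chi
      have h3 : ∀ i, (1 / (orderOf (s i) : ℂ)) * ∑ x : G, ∑ k ∈ range (orderOf (s i)),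
          (if x * s i ^ k * x⁻¹ = g then eps (orderOf (s i)) k else 0) =
          (((Nat.card G : ℝ) / orderOf (s i) : ℝ) : ℂ) * ∑ k ∈ range (orderOf (s i)),
          (if s i ^ k = g then eps (orderOf (s i)) k else 0) := by
        intro i
        have h4 : ∀ x : G, ∑ k ∈ range (orderOf (s i)),
            (if x * s i ^ k * x⁻¹ = g then eps (orderOf (s i)) k else 0) =
            ∑ k ∈ range (orderOf (s i)), (if s i ^ k = g then eps (orderOf (s i)) k else 0) := by
          intro x
          refine sum_congr rfl fun k _ => ?_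
          rw [hc x, mul_inv_cancel_right]
        rw [sum_congr rfl fun x _ => h4 x, sum_const, card_univ, nsmul_eq_mul,
          ← Nat.card_eq_fintype_card]
        push_cast
        ring
      rw [sum_congr rfl fun i _ => h3 i]
      congr 2
      split_ifs <;> simp
    rw [h2, Complex.add_re, Complex.sub_re, Complex.one_re, Complex.ofReal_re, Complex.re_sum]
    congr 1
    refine sum_congr rfl fun i _ => ?_
    rw [Complex.re_ofReal_mul, Complex.re_sum]
    congr 1
    refine sum_congr rfl fun k _ => ?_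
    split_ifs <;> simp
  have h5 : ∀ g : G, rt g * (chi s g).re = rt g - (if g = 1 then (Nat.card G : ℝ) * rt (1 : G)
      else 0) + ∑ i, (Nat.card G : ℝ) / orderOf (s i) * ∑ k ∈ range (orderOf (s i)),
        (if s i ^ k = g then rt (s i ^ k) * (eps (orderOf (s i)) k).re else 0) := by
    intro g
    rw [h1 g, mul_add, mul_sub, mul_one, mul_sum]
    congr 1
    · congr 1
      split_ifs with h
      · rw [h, mul_comm]
      · rw [mul_zero]
    · refine sum_congr rfl fun i _ => ?_
      rw [mul_left_comm, mul_sum]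
      congr 1
      refine sum_congr rfl fun k _ => ?_
      split_ifs with h
      · rw [h]
      · rw [mul_zero]
  rw [sum_congr rfl fun g _ => h5 g, sum_add_distrib, sum_sub_distrib, sum_rt, sum_ite_eq',
    if_pos (mem_univ _), sum_comm]
  congr 1
  rw [mul_sum]
  refine sum_congr rfl fun i _ => ?_
  rw [← mul_sum, sum_comm]
  have h6 : ∑ k ∈ range (orderOf (s i)), ∑ g : G,
      (if s i ^ k = g then rt (s i ^ k) * (eps (orderOf (s i)) k).re else 0) =
      ∑ k ∈ range (orderOf (s i)), rt (s i ^ k) * (eps (orderOf (s i)) k).re := by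
    refine sum_congr rfl fun k _ => ?_
    rw [sum_ite_eq, if_pos (mem_univ _)]
  have hm : (orderOf (s i) : ℝ) ≠ 0 := by exact_mod_cast (orderOf_pos (s i)).ne'
  rw [h6, sum_rt_eps hc]
  field_simp

/-- `G` modulo squares is generated by the classes of the `s i` which are not squares. -/
theorem card_le_pow {G : Type} [CommGroup G] [Fintype G] {N : ℕ} (s : Fin N → G)
    (hg : Subgroup.closure (Set.range s) = ⊤) [DecidablePred fun i => ∃ y : G, y ^ 2 = s i] :
    Nat.card G ≤ 2 ^ (univ.filter fun i => ¬ ∃ y : G, y ^ 2 = s i).card *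
      Nat.card (Set.range fun y : G => y ^ 2) := by
  classical
  have key : ∀ g : G, ∃ A : Finset (Fin N), A ⊆ univ.filter (fun i => ¬ ∃ y : G, y ^ 2 = s i) ∧
      ∃ y : G, g = (∏ i ∈ A, s i) * y ^ 2 := by
    intro g
    have hgm : g ∈ Subgroup.closure (Set.range s) := by rw [hg]; trivial
    induction hgm using Subgroup.closure_induction with
    | mem x hx =>
      obtain ⟨i, rfl⟩ := hx
      by_cases h : ∃ y : G, y ^ 2 = s i
      · obtain ⟨y, hy⟩ := h
        exact ⟨∅, empty_subset _, y, by simp [hy]⟩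
      · exact ⟨{i}, by simpa using h, 1, by simp⟩
    | one => exact ⟨∅, empty_subset _, 1, by simp⟩
    | mul x y _ _ hx hy =>
      obtain ⟨A, hA, u, hu⟩ := hx
      obtain ⟨B, hB, v, hv⟩ := hy
      refine ⟨symmDiff A B, ?_, (∏ i ∈ A ∩ B, s i) * u * v, ?_⟩
      · intro i hi
        rw [mem_symmDiff] at hi
        rcases hi with hi | hi
        · exact hA hi.1
        · exact hB hi.1
      · have h1 : (∏ i ∈ A \ B, s i) * (∏ i ∈ A ∩ B, s i) = ∏ i ∈ A, s i := by
          rw [mul_comm]
          exact prod_inter_mul_prod_sdiff A B s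
        have h2 : (∏ i ∈ B \ A, s i) * (∏ i ∈ A ∩ B, s i) = ∏ i ∈ B, s i := by
          rw [mul_comm, inter_comm]
          exact prod_inter_mul_prod_sdiff B A s
        have h3 : ∏ i ∈ symmDiff A B, s i = (∏ i ∈ A \ B, s i) * ∏ i ∈ B \ A, s i := by
          rw [symmDiff_def, sup_eq_union]
          exact prod_union (disjoint_sdiff_sdiff)
        rw [hu, hv, h3, ← h1, ← h2]
        simp only [sq]
        ac_rfl
    | inv x _ hx =>
      obtain ⟨A, hA, u, hu⟩ := hx
      refine ⟨A, hA, u * x⁻¹, ?_⟩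
      rw [mul_pow, ← mul_assoc, ← hu, inv_pow, sq, mul_inv_rev, mul_inv_cancel_left]
  have h1 : Function.Surjective fun p : (univ.filter (fun i => ¬ ∃ y : G, y ^ 2 = s i)).powerset ×
      (Set.range fun y : G => y ^ 2) => (∏ i ∈ p.1.1, s i) * p.2.1 := by
    intro g
    obtain ⟨A, hA, y, hy⟩ := key g
    exact ⟨(⟨A, mem_powerset.2 hA⟩, ⟨y ^ 2, y, rfl⟩), hy.symm⟩
  have h2 := Nat.card_le_card_of_surjective _ h1
  rw [Nat.card_prod] at h2
  have h3 : Nat.card (univ.filter (fun i => ¬ ∃ y : G, y ^ 2 = s i)).powerset =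
      2 ^ (univ.filter fun i => ¬ ∃ y : G, y ^ 2 = s i).card := by
    rw [Nat.card_eq_fintype_card, Fintype.card_coe, card_powerset]
  rw [h3] at h2
  exact h2

theorem rt_le (s : Fin N → G) (hc : ∀ a b : G, a * b = b * a)
    (hg : Subgroup.closure (Set.range s) = ⊤) [DecidablePred fun i => ∃ y : G, y ^ 2 = s i] :
    rt (1 : G) ≤ 2 ^ (univ.filter fun i => ¬ ∃ y : G, y ^ 2 = s i).card := by
  classical
  have h1 : Nat.card G ≤ 2 ^ (univ.filter fun i => ¬ ∃ y : G, y ^ 2 = s i).card *
      Nat.card (Set.range fun y : G => y ^ 2) := by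
    letI : CommGroup G := { (inferInstance : Group G) with mul_comm := hc }
    exact card_le_pow s hg
  have h2 : (Nat.card G : ℝ) = Nat.card (Set.range fun y : G => y ^ 2) * rt (1 : G) := by
    rw [← sum_rt]
    have h3 : ∀ g : G, rt g = if g ∈ (Set.range fun y : G => y ^ 2) then rt (1 : G) else 0 := by
      intro g
      split_ifs with h
      · obtain ⟨y, rfl⟩ := h
        exact rt_sq_comm hc y
      · exact rt_of_not_sq h
    rw [sum_congr rfl fun g _ => h3 g, ← sum_filter, sum_const, nsmul_eq_mul]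
    congr 2
    rw [Nat.card_eq_fintype_card, Fintype.card_subtype]
  have h3 : (0 : ℝ) < Nat.card (Set.range fun y : G => y ^ 2) := by
    have : Nonempty (Set.range fun y : G => y ^ 2) := ⟨⟨1 ^ 2, 1, rfl⟩⟩
    exact_mod_cast Nat.card_pos
  have h4 : (Nat.card G : ℝ) ≤ 2 ^ (univ.filter fun i => ¬ ∃ y : G, y ^ 2 = s i).card *
      Nat.card (Set.range fun y : G => y ^ 2) := by exact_mod_cast h1
  rw [h2, mul_comm] at h4
  exact le_of_mul_le_mul_right h4 h3

theorem fs_comm (s : Fin N → G) (hc : ∀ a b : G, a * b = b * a)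
    (hg : Subgroup.closure (Set.range s) = ⊤) :
    -(Nat.card G : ℝ) ≤ ∑ g : G, (chi s (g ^ 2)).re := by
  classical
  rw [fs_comm_eq s hc]
  have h1 : ∑ i, (if (∃ y : G, y ^ 2 = s i) then (0 : ℝ) else 1) =
      ((univ.filter fun i => ¬ ∃ y : G, y ^ 2 = s i).card : ℝ) := by
    rw [card_filter]
    push_cast
    refine sum_congr rfl fun i _ => ?_
    split_ifs <;> simp_all
  have h2 := rt_le s hc hg
  rw [h1]
  generalize (univ.filter fun i => ¬ ∃ y : G, y ^ 2 = s i).card = j at h2 ⊢
  have hn : (0 : ℝ) < Nat.card G := by exact_mod_cast Nat.card_pos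
  have ht := one_le_rt_one (G := G)
  have h3 : rt (1 : G) * (1 - (j : ℝ) / 4) ≤ 2 := by
    rcases Nat.lt_or_ge j 4 with hj | hj
    · interval_cases j <;> norm_num at h2 ⊢ <;> linarith
    · have h4 : (4 : ℝ) ≤ j := by exact_mod_cast hj
      nlinarith
  nlinarith

end Pool.Agent.H82.CO
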