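import Mathlib

set_option autoImplicit false

/-!
# Pairs of elements with the same square
-/

namespace Pool.Agent.H82.CO

open Finset

variable {G : Type} [Group G] [Fintype G]

open Classical in
/-- The number of square roots. -/
noncomputable def rt (g : G) : ℝ := ∑ u : G, if u ^ 2 = g then 1 else 0

/-- The number of pairs with the same square. -/
noncomputable def Qs (G : Type) [Group G] [Fintype G] : ℝ := ∑ g : G, rt g ^ 2

theorem rt_one_eq : rt (1 : G) = (Nat.card {u : G // u ^ 2 = 1} : ℝ) := by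
  classical
  rw [rt, sum_boole, Nat.card_eq_fintype_card, Fintype.card_subtype]

theorem sum_comp_sq (H : G → ℝ) : ∑ g : G, H (g ^ 2) = ∑ g : G, rt g * H g := by
  classical
  have h1 : ∀ g : G, rt g * H g = ∑ u : G, if u ^ 2 = g then H g else 0 := by
    intro g
    rw [rt, sum_mul]
    refine sum_congr rfl fun u _ => ?_
    split_ifs <;> simp
  rw [sum_congr rfl fun g _ => h1 g, sum_comm]
  refine sum_congr rfl fun u _ => ?_
  rw [sum_ite_eq, if_pos (mem_univ _)]

theorem Qs_eq : Qs G = ∑ g : G, rt (g ^ 2) := by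
  rw [Qs, sum_comp_sq]
  exact sum_congr rfl fun g _ => by ring

theorem Qs_eq_card : Qs G = (Nat.card {p : G × G // p.1 ^ 2 = p.2 ^ 2} : ℝ) := by
  classical
  rw [Qs_eq, Nat.card_eq_fintype_card, Fintype.card_subtype]
  have h1 : ((univ.filter fun p : G × G => p.1 ^ 2 = p.2 ^ 2).card : ℝ) =
      ∑ p : G × G, if p.1 ^ 2 = p.2 ^ 2 then (1 : ℝ) else 0 := by
    rw [sum_boole]
  rw [h1, Fintype.sum_prod_type_right]
  rfl

theorem one_le_rt_one : 1 ≤ rt (1 : G) := by
  classical
  rw [rt]
  have h := single_le_sum (s := (univ : Finset G)) (f := fun u : G => if u ^ 2 = 1 then (1 : ℝ) else 0)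
    (fun u _ => by split_ifs <;> norm_num) (mem_univ (1 : G))
  simpa using h

theorem Qs_comm (h : ∀ a b : G, a * b = b * a) : Qs G = (Nat.card G : ℝ) * rt (1 : G) := by
  classical
  have h1 : ∀ g : G, rt (g ^ 2) = rt (1 : G) := by
    intro g
    rw [rt, rt]
    refine Fintype.sum_equiv (Equiv.mulRight g⁻¹) _ _ fun u => ?_
    have h2 : u ^ 2 = g ^ 2 ↔ (Equiv.mulRight g⁻¹ u) ^ 2 = 1 := by
      rw [Equiv.coe_mulRight, (show Commute u g⁻¹ from h u g⁻¹).mul_pow, inv_pow, mul_inv_eq_one]
    simp only [h2]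
  rw [Qs_eq, sum_congr rfl fun g _ => h1 g, sum_const, card_univ, nsmul_eq_mul,
    ← Nat.card_eq_fintype_card]

open Classical in
/-- The number of `a` with `a⁻¹ x a = x⁻¹`. -/
noncomputable def cj (x : G) : ℝ := ∑ a : G, if a⁻¹ * x * a = x⁻¹ then 1 else 0

theorem Qs_eq_cj : Qs G = ∑ x : G, cj x := by
  classical
  rw [Qs_eq]
  have h1 : ∀ a : G, rt (a ^ 2) = ∑ x : G, if a⁻¹ * x * a = x⁻¹ then (1 : ℝ) else 0 := by
    intro a
    rw [rt]
    -- `b = x⁻¹ a`, `x = a b⁻¹`
    refine Fintype.sum_equiv ((Equiv.inv G).trans (Equiv.mulLeft a)) _ _ fun b => ?_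
    have h2 : b ^ 2 = a ^ 2 ↔ a⁻¹ * (((Equiv.inv G).trans (Equiv.mulLeft a)) b) * a =
        (((Equiv.inv G).trans (Equiv.mulLeft a)) b)⁻¹ := by
      simp only [Equiv.trans_apply, Equiv.inv_apply, Equiv.coe_mulLeft, mul_inv_rev, inv_inv]
      rw [inv_mul_cancel_left]
      constructor
      · intro h
        rw [inv_mul_eq_iff_eq_mul, ← mul_assoc, eq_mul_inv_iff_mul_eq, ← sq, ← sq, h]
      · intro h
        rw [inv_mul_eq_iff_eq_mul, ← mul_assoc, eq_mul_inv_iff_mul_eq, ← sq, ← sq] at h
        exact h.symm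
    simp only [h2]
  rw [sum_congr rfl fun a _ => h1 a, sum_comm]
  rfl

theorem cj_le_card (x : G) : cj x ≤ (Nat.card G : ℝ) := by
  classical
  rw [cj]
  calc ∑ a : G, (if a⁻¹ * x * a = x⁻¹ then (1 : ℝ) else 0) ≤ ∑ _a : G, (1 : ℝ) :=
        sum_le_sum fun a _ => by split_ifs <;> norm_num
    _ = _ := by rw [sum_const, card_univ, nsmul_eq_mul, mul_one, ← Nat.card_eq_fintype_card]

theorem cj_le_half {x : G} (hx : x ∉ Subgroup.center G) : cj x ≤ (Nat.card G : ℝ) / 2 := by
  classical
  have h1 : cj x ≤ (Nat.card (Subgroup.centralizer {x} : Subgroup G) : ℝ) := by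
    rw [cj, sum_boole]
    norm_cast
    have hc : Nat.card (Subgroup.centralizer {x} : Subgroup G) =
        (univ.filter fun g : G => g ∈ Subgroup.centralizer ({x} : Set G)).card := by
      rw [Nat.card_eq_fintype_card, Fintype.card_subtype]
    rw [hc]
    by_cases he : ∃ a₀ : G, a₀⁻¹ * x * a₀ = x⁻¹
    · obtain ⟨a₀, ha₀⟩ := he
      refine card_le_card_of_injOn (fun a => a * a₀⁻¹) ?_ ?_
      · intro a ha
        simp only [coe_filter, mem_univ, true_and, Set.mem_ofPred_eq] at ha ⊢
        rw [Subgroup.mem_centralizer_iff]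
        intro y hy
        rw [Set.mem_singleton_iff] at hy
        subst hy
        have h1 : y * a = a * y⁻¹ := by rw [← ha]; group
        have h2 : a₀⁻¹ * y = y⁻¹ * a₀⁻¹ := by rw [← ha₀]; group
        rw [← mul_assoc, h1, mul_assoc, mul_assoc, h2]
      · intro a _ b _ hab
        exact mul_right_cancel hab
    · have h0 : (univ.filter fun a : G => a⁻¹ * x * a = x⁻¹) = ∅ := by
        rw [filter_eq_empty_iff]
        intro a _ ha
        exact he ⟨a, ha⟩
      rw [h0, card_empty]
      exact Nat.zero_le _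
  have h2 : (Nat.card (Subgroup.centralizer {x} : Subgroup G)) * 2 ≤ Nat.card G := by
    have h3 := (Subgroup.centralizer ({x} : Set G)).card_mul_index
    have h4 : (Subgroup.centralizer ({x} : Set G)).index ≠ 1 := by
      intro h
      apply hx
      rw [Subgroup.index_eq_one] at h
      rw [Subgroup.mem_center_iff]
      intro g
      have : g ∈ Subgroup.centralizer ({x} : Set G) := by rw [h]; trivial
      rw [Subgroup.mem_centralizer_iff] at this
      exact (this x rfl).symm
    have h5 : (Subgroup.centralizer ({x} : Set G)).index ≠ 0 := Subgroup.index_ne_zero_of_finite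
    have h6 : 2 ≤ (Subgroup.centralizer ({x} : Set G)).index := by omega
    calc _ ≤ Nat.card (Subgroup.centralizer {x} : Subgroup G) *
          (Subgroup.centralizer ({x} : Set G)).index := Nat.mul_le_mul_left _ h6
      _ = _ := h3
  have h7 : ((Nat.card (Subgroup.centralizer {x} : Subgroup G)) : ℝ) * 2 ≤ Nat.card G := by
    exact_mod_cast h2
  linarith

theorem card_center_le (h : ¬ ∀ a b : G, a * b = b * a) :
    (Nat.card (Subgroup.center G) : ℝ) ≤ (Nat.card G : ℝ) / 4 := by
  have h1 := (Subgroup.center G).card_mul_index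
  have h5 : (Subgroup.center G).index ≠ 0 := Subgroup.index_ne_zero_of_finite
  have h2 : 4 ≤ (Subgroup.center G).index := by
    by_contra hlt
    apply h
    have hcyc : IsCyclic (G ⧸ Subgroup.center G) := by
      have h3 : (Subgroup.center G).index = 1 ∨ (Subgroup.center G).index = 2 ∨
          (Subgroup.center G).index = 3 := by omega
      have h4 : Nat.card (G ⧸ Subgroup.center G) = (Subgroup.center G).index := rfl
      rcases h3 with h3 | h3 | h3
      · have : Subsingleton (G ⧸ Subgroup.center G) := by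
          rw [← Finite.card_le_one_iff_subsingleton, h4, h3]
        exact isCyclic_of_subsingleton
      · have : Fact (Nat.Prime 2) := ⟨by norm_num⟩
        exact isCyclic_of_prime_card (p := 2) (h4.trans h3)
      · have : Fact (Nat.Prime 3) := ⟨by norm_num⟩
        exact isCyclic_of_prime_card (p := 3) (h4.trans h3)
    have hc := MonoidHom.isMulCommutative_of_isCyclic_of_ker_le_center
      (QuotientGroup.mk' (Subgroup.center G)) (by rw [QuotientGroup.ker_mk'])
    exact fun a b => hc.is_comm.comm a b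
  have h3 : Nat.card (Subgroup.center G) * 4 ≤ Nat.card G := by
    calc _ ≤ Nat.card (Subgroup.center G) * (Subgroup.center G).index :=
        Nat.mul_le_mul_left _ h2
      _ = _ := h1
  have h4 : (Nat.card (Subgroup.center G) : ℝ) * 4 ≤ Nat.card G := by exact_mod_cast h3
  linarith

theorem Qs_le (h : ¬ ∀ a b : G, a * b = b * a) : Qs G ≤ 5 / 8 * (Nat.card G : ℝ) ^ 2 := by
  classical
  rw [Qs_eq_cj]
  have h1 : ∀ x : G, cj x ≤ (Nat.card G : ℝ) / 2 +
      if x ∈ Subgroup.center G then (Nat.card G : ℝ) / 2 else 0 := by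
    intro x
    split_ifs with hx
    · have := cj_le_card x
      linarith
    · have := cj_le_half hx
      linarith
  refine (sum_le_sum fun x _ => h1 x).trans ?_
  rw [sum_add_distrib, sum_const, card_univ, nsmul_eq_mul, ← sum_filter, sum_const, nsmul_eq_mul,
    ← Nat.card_eq_fintype_card]
  have h2 : ((univ.filter fun x : G => x ∈ Subgroup.center G).card : ℝ) =
      Nat.card (Subgroup.center G) := by
    rw [Nat.card_eq_fintype_card, Fintype.card_subtype]
  rw [h2]
  have h3 := card_center_le h
  have h4 : (0 : ℝ) ≤ Nat.card G := by positivity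
  nlinarith

end Pool.Agent.H82.CO
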