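import Pool.Agent.H82.CO.Odd
import Pool.Agent.H82.CO.Sq

set_option autoImplicit false

/-!
# The lower bound for the number of invariant quadrics
-/

namespace Pool.Agent.H82.CO

open Finset

variable {G : Type} [Group G] [Fintype G] {N : ℕ}

theorem chi_one (s : Fin N → G) : chi s 1 = (genus s : ℂ) := by
  classical
  have h1 : ∀ i, ∀ x : G, (∑ k ∈ range (orderOf (s i)),
      if x * s i ^ k * x⁻¹ = 1 then eps (orderOf (s i)) k else 0) =
      ((((orderOf (s i) : ℝ) - 1) / 2 : ℝ) : ℂ) := by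
    intro i x
    rw [← eps_zero (orderOf_pos (s i)), sum_eq_single 0]
    · rw [if_pos]
      simp
    · intro k hk hk0
      rw [if_neg]
      intro h
      rw [conj_eq_one_iff, ← orderOf_dvd_iff_pow_eq_one] at h
      exact hk0 (Nat.eq_zero_of_dvd_of_lt h (mem_range.1 hk))
    · intro h
      exact absurd (mem_range.2 (orderOf_pos (s i))) h
  have hm : ∀ i, (orderOf (s i) : ℂ) ≠ 0 := fun i => by exact_mod_cast (orderOf_pos (s i)).ne'
  have h2 : ∀ i, (1 / (orderOf (s i) : ℂ)) * (∑ x : G, ∑ k ∈ range (orderOf (s i)),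
      if x * s i ^ k * x⁻¹ = 1 then eps (orderOf (s i)) k else 0) =
      (Nat.card G : ℂ) / 2 * (1 - 1 / (orderOf (s i) : ℂ)) := by
    intro i
    rw [sum_congr rfl fun x _ => h1 i x, sum_const, card_univ, nsmul_eq_mul,
      ← Nat.card_eq_fintype_card]
    have := hm i
    push_cast
    field_simp
  rw [chi, if_pos rfl, sum_congr rfl fun i _ => h2 i, ← mul_sum, sum_sub_distrib, genus]
  simp only [sum_const, card_univ, Fintype.card_fin, nsmul_eq_mul, mul_one]
  push_cast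
  ring

omit [Fintype G] in
theorem genus_eq (s : Fin N → G) : genus s = 1 + (Nat.card G : ℝ) * (nu s - 2) / 2 := by
  rw [genus, nu, sum_sub_distrib]
  simp only [sum_const, card_univ, Fintype.card_fin, nsmul_eq_mul, mul_one]
  ring

theorem main_ineq (s : Fin N → G) (hs : ∀ i, s i ≠ 1) :
    (genus s + rt (1 : G) / 2) ^ 2 - Qs G / 4 -
      (Nat.card G : ℝ) ^ 2 * (nu s * (2 * nu s - N) / 12) ≤
      2 * Nat.card G * (quadInv s).re := by
  have hn : (0 : ℝ) < Nat.card G := by exact_mod_cast Nat.card_pos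
  have h1 : 2 * Nat.card G * (quadInv s).re =
      ∑ g : G, ((chi s g).re ^ 2 - (chi s g).im ^ 2 + (chi s (g ^ 2)).re) := by
    have h2 : (1 / (2 * (Nat.card G : ℂ))) = ((1 / (2 * (Nat.card G : ℝ)) : ℝ) : ℂ) := by
      push_cast; rfl
    rw [quadInv, h2, Complex.re_ofReal_mul, Complex.re_sum]
    have h3 : ∀ g : G, (chi s g ^ 2 + chi s (g ^ 2)).re =
        (chi s g).re ^ 2 - (chi s g).im ^ 2 + (chi s (g ^ 2)).re := by
      intro g
      rw [Complex.add_re, sq, Complex.mul_re]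
      ring
    rw [sum_congr rfl fun g _ => h3 g]
    field_simp
  have h4 : ∑ g : G, ((chi s g).re ^ 2 - (chi s g).im ^ 2 + (chi s (g ^ 2)).re) =
      ∑ g : G, ((chi s g).re + rt g / 2) ^ 2 - Qs G / 4 - ∑ g : G, (chi s g).im ^ 2 := by
    rw [sum_add_distrib, sum_sub_distrib, sum_comp_sq (fun g => (chi s g).re), Qs]
    have h5 : ∑ g : G, ((chi s g).re + rt g / 2) ^ 2 = ∑ g : G, (chi s g).re ^ 2 +
        ∑ g : G, rt g * (chi s g).re + (∑ g : G, rt g ^ 2) / 4 := by
      rw [sum_div, ← sum_add_distrib, ← sum_add_distrib]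
      exact sum_congr rfl fun g _ => by ring
    rw [h5]
    ring
  have h6 : (genus s + rt (1 : G) / 2) ^ 2 ≤ ∑ g : G, ((chi s g).re + rt g / 2) ^ 2 := by
    have h7 : (chi s 1).re = genus s := by rw [chi_one, Complex.ofReal_re]
    rw [← h7]
    exact single_le_sum (f := fun g : G => ((chi s g).re + rt g / 2) ^ 2)
      (fun g _ => sq_nonneg _) (mem_univ (1 : G))
  have h8 := sum_chi_im_sq s hs
  rw [h1, h4]
  linarith

theorem nu_ge (s : Fin N → G) (hs : ∀ i, s i ≠ 1) : (N : ℝ) / 2 ≤ nu s := by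
  have h1 : ∀ i, (1 : ℝ) / 2 ≤ 1 - 1 / (orderOf (s i) : ℝ) := by
    intro i
    have h1 : 0 < orderOf (s i) := orderOf_pos _
    have h2 : orderOf (s i) ≠ 1 := fun h => hs i (orderOf_eq_one_iff.1 h)
    have h3 : (2 : ℝ) ≤ orderOf (s i) := by
      have : 2 ≤ orderOf (s i) := by omega
      exact_mod_cast this
    have : 1 / (orderOf (s i) : ℝ) ≤ 1 / 2 := one_div_le_one_div_of_le (by norm_num) h3
    linarith
  have h2 := sum_le_sum (s := (univ : Finset (Fin N))) fun i _ => h1 i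
  simp only [sum_const, card_univ, Fintype.card_fin, nsmul_eq_mul] at h2
  rw [nu]
  linarith

/-- The inequality in the variables `n = |G|`, `P = 2 (genus - 1)`, `k = N - 6`. -/
theorem ineq_P (s : Fin N → G) (hs : ∀ i, s i ≠ 1) (hN : 6 ≤ N) :
    ∃ n P k : ℝ, n = Nat.card G ∧ P = 2 * (genus s - 1) ∧ k = N - 6 ∧ 2 ≤ n ∧
      n * (k + 2) / 2 ≤ P ∧
      2 + 3 * P / 2 + P ^ 2 / 12 - P * n / 6 + 17 * n ^ 2 / 96 - 6 * n +
        k * n * (P / 12 + n / 6 - 2) ≤ 2 * n * ((quadInv s).re - (N - 3)) := by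
  set n : ℝ := (Nat.card G : ℝ) with hn
  set v := nu s with hv
  have hg := genus_eq s
  rw [← hn, ← hv] at hg
  have hN' : (6 : ℝ) ≤ N := by exact_mod_cast hN
  have hnu := nu_ge s hs
  rw [← hv] at hnu
  have hn2 : 2 ≤ n := by
    have i0 : Fin N := ⟨0, by omega⟩
    have : Nontrivial G := ⟨⟨s i0, 1, hs i0⟩⟩
    have := Finite.one_lt_card (α := G)
    rw [hn]
    exact_mod_cast this
  have h1 := main_ineq s hs
  rw [← hn, ← hv] at h1
  have ht := one_le_rt_one (G := G)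
  have h2 : genus s ^ 2 + genus s - 5 * n ^ 2 / 32 ≤
      (genus s + rt (1 : G) / 2) ^ 2 - Qs G / 4 := by
    by_cases hc : ∀ a b : G, a * b = b * a
    · rw [Qs_comm hc, ← hn]
      have h3 : n / 4 ≤ genus s := by rw [hg]; nlinarith
      nlinarith [mul_nonneg (sub_nonneg.2 ht) (sub_nonneg.2 h3), sq_nonneg (rt (1 : G))]
    · have h3 := Qs_le hc
      rw [← hn] at h3
      have h4 : 0 ≤ genus s := by rw [hg]; nlinarith
      nlinarith [mul_nonneg (sub_nonneg.2 ht) h4]
  refine ⟨n, 2 * (genus s - 1), N - 6, rfl, rfl, rfl, hn2, ?_, ?_⟩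
  · rw [hg]; nlinarith
  · have h5 : 2 * (genus s - 1) = n * (v - 2) := by rw [hg]; ring
    rw [h5]
    have h6 : genus s ^ 2 + genus s - 5 * n ^ 2 / 32 - n ^ 2 * (v * (2 * v - N) / 12) ≤
        2 * n * (quadInv s).re := by linarith
    rw [hg] at h6
    nlinarith [h6]

end Pool.Agent.H82.CO
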