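import Mathlib

set_option autoImplicit false

/-!
# The leading coefficient for `N = 5`
-/

namespace Pool.Agent.H82.CO

open Finset

open Classical in
/-- Twelve times the leading coefficient of the lower bound, as a function of the `y i = 1 / m_i`. -/
noncomputable def mu12 (y : Fin 5 → ℝ) : ℝ :=
  3 * ((3 - ∑ i, y i)) ^ 2 - (5 - 2 * ∑ i, y i) * (∑ i, if y i = 1 / 2 then 0 else 1 - y i) +
    (if (∑ i, y i) ≤ 2 then 6 * ∑ i, (if y i = 1 / 2 then 0 else y i ^ 2) else 0)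

theorem mu12_cases (y : Fin 5 → ℝ) (h0 : ∀ i, 0 < y i) (h : ∀ i, y i = 1 / 2 ∨ y i ≤ 1 / 3) :
    ∃ (k : ℕ) (Y T : ℝ), k ≤ 5 ∧ 0 ≤ Y ∧ Y ≤ k / 3 ∧ Y ^ 2 ≤ k * T ∧ 0 ≤ T ∧
      ∑ i, y i = (5 - k) / 2 + Y ∧
      mu12 y = 3 * ((1 + k) / 2 - Y) ^ 2 - (k - 2 * Y) * (k - Y) +
        if (5 - (k : ℝ)) / 2 + Y ≤ 2 then 6 * T else 0 := by
  classical
  set I := univ.filter fun i => ¬ y i = 1 / 2 with hI
  have h1 : ∀ f : Fin 5 → ℝ, ∑ i, (if y i = 1 / 2 then 0 else f i) = ∑ i ∈ I, f i := by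
    intro f
    rw [hI, sum_filter]
    refine sum_congr rfl fun i _ => ?_
    by_cases hi : y i = 1 / 2
    · rw [if_pos hi, if_neg (not_not.2 hi)]
    · rw [if_neg hi, if_pos hi]
  have h2 : ∑ i, y i = (5 - (I.card : ℝ)) / 2 + ∑ i ∈ I, y i := by
    have h3 : ∑ i, y i = ∑ _i : Fin 5, (1 / 2 : ℝ) +
        ∑ i, (if y i = 1 / 2 then 0 else (y i - 1 / 2)) := by
      rw [← sum_add_distrib]
      refine sum_congr rfl fun i _ => ?_
      split_ifs with hi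
      · rw [hi]; norm_num
      · ring
    rw [h3, h1, sum_sub_distrib]
    simp only [sum_const, card_univ, Fintype.card_fin, nsmul_eq_mul]
    push_cast
    ring
  have hI' : ∀ i ∈ I, y i ≤ 1 / 3 := by
    intro i hi
    rcases h i with h4 | h4
    · exact absurd h4 (mem_filter.1 hi).2
    · exact h4
  refine ⟨I.card, ∑ i ∈ I, y i, ∑ i ∈ I, y i ^ 2, ?_, sum_nonneg fun i _ => (h0 i).le, ?_, ?_,
    sum_nonneg fun i _ => sq_nonneg _, h2, ?_⟩
  · have := card_filter_le (univ : Finset (Fin 5)) fun i => ¬ y i = 1 / 2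
    rw [card_univ, Fintype.card_fin] at this
    exact this
  · calc ∑ i ∈ I, y i ≤ ∑ _i ∈ I, (1 / 3 : ℝ) := sum_le_sum hI'
      _ = (I.card : ℝ) / 3 := by rw [sum_const, nsmul_eq_mul]; ring
  · exact sq_sum_le_card_mul_sum_sq
  · rw [mu12, h1, h1, h2, sum_sub_distrib]
    simp only [sum_const, nsmul_eq_mul, mul_one]
    ring_nf

theorem mu12_both (y : Fin 5 → ℝ) (h0 : ∀ i, 0 < y i) (h : ∀ i, y i = 1 / 2 ∨ y i ≤ 1 / 3) :
    3 / 4 ≤ mu12 y ∧ 3 - ∑ i, y i ≤ 243 / 100 * mu12 y := by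
  obtain ⟨k, Y, T, hk, hY0, hY, hT, hT0, hs, hm⟩ := mu12_cases y h0 h
  rw [hs, hm]
  interval_cases k
  · push_cast at hY hT ⊢
    have : Y = 0 := by linarith
    subst this
    norm_num
  · push_cast at hY hT ⊢
    constructor
    · split_ifs <;> nlinarith
    · split_ifs <;> nlinarith
  · push_cast at hY hT ⊢
    constructor
    · split_ifs <;> nlinarith
    · split_ifs <;> nlinarith
  · push_cast at hY hT ⊢
    rw [if_pos (by linarith)]
    constructor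
    · nlinarith [sq_nonneg (Y - 1 / 2)]
    · nlinarith [sq_nonneg (Y - 1 / 2)]
  · push_cast at hY hT ⊢
    rw [if_pos (by linarith)]
    constructor
    · nlinarith [sq_nonneg (Y - 3 / 5)]
    · nlinarith [sq_nonneg (Y - 3 / 5)]
  · push_cast at hY hT ⊢
    rw [if_pos (by linarith)]
    constructor
    · nlinarith [sq_nonneg (Y - 15 / 22)]
    · nlinarith [sq_nonneg (Y - 59 / 100)]

theorem mu12_ge (y : Fin 5 → ℝ) (h0 : ∀ i, 0 < y i) (h : ∀ i, y i = 1 / 2 ∨ y i ≤ 1 / 3) :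
    3 / 4 ≤ mu12 y :=
  (mu12_both y h0 h).1

theorem mu12_ge' (y : Fin 5 → ℝ) (h0 : ∀ i, 0 < y i) (h : ∀ i, y i = 1 / 2 ∨ y i ≤ 1 / 3) :
    3 - ∑ i, y i ≤ 243 / 100 * mu12 y :=
  (mu12_both y h0 h).2

end Pool.Agent.H82.CO
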