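import Pool.Agent.H82.CO.Key
import Pool.Agent.H82.CO.Main
import Pool.Agent.H82.CO.Mu

set_option autoImplicit false

/-!
# The invariants in the tensor square, with the fixed points

Authors: helper82, helper92.
-/

namespace Pool.Agent.H82.CO

open Finset

variable {G : Type} [Group G] [Fintype G] {N : ℕ}

theorem indIm_one (c : G) : indIm c 1 = 0 := by
  rw [indIm]
  have h : ∀ x : G, fIm c (x⁻¹ * 1 * x) = 0 := by
    intro x
    have h1 := fIm_pow c (orderOf_pos c)
    rw [pow_zero, eps_zero (orderOf_pos c), Complex.ofReal_im] at h1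
    rw [mul_one, inv_mul_cancel, h1]
  rw [sum_congr rfl fun x _ => h x]
  simp

theorem indIm_two {c : G} (hc : orderOf c = 2) (g : G) : indIm c g = 0 := by
  have h1 := sum_indIm_sq c
  rw [hc] at h1
  have h2 : ∑ g : G, indIm c g ^ 2 ≤ 0 := by
    refine h1.trans (le_of_eq ?_)
    push_cast
    ring
  have h3 := single_le_sum (f := fun g : G => indIm c g ^ 2) (fun g _ => sq_nonneg _) (mem_univ g)
  have h4 : indIm c g ^ 2 = 0 := le_antisymm (h3.trans h2) (sq_nonneg _)
  exact pow_eq_zero_iff (two_ne_zero) |>.1 h4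

theorem order_ge (s : Fin N → G) (hs : ∀ i, s i ≠ 1) (i : Fin N) : 2 ≤ orderOf (s i) := by
  have h1 : 0 < orderOf (s i) := orderOf_pos _
  have h2 : orderOf (s i) ≠ 1 := fun h => hs i (orderOf_eq_one_iff.1 h)
  omega

theorem wt_nonneg (s : Fin N → G) (hs : ∀ i, s i ≠ 1) (i : Fin N) :
    0 ≤ 1 - 2 * (1 / (orderOf (s i) : ℝ)) := by
  have h3 : (2 : ℝ) ≤ orderOf (s i) := by exact_mod_cast order_ge s hs i
  have : 1 / (orderOf (s i) : ℝ) ≤ 1 / 2 := one_div_le_one_div_of_le (by norm_num) h3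
  linarith

omit [Fintype G] in
theorem W_eq (s : Fin N → G) : 2 * nu s - N = ∑ i, (1 - 2 * (1 / (orderOf (s i) : ℝ))) := by
  rw [nu, sum_sub_distrib, sum_sub_distrib, ← mul_sum]
  simp only [sum_const, card_univ, Fintype.card_fin, nsmul_eq_mul, mul_one]
  ring

theorem W_ge (s : Fin N → G) (hs : ∀ i, s i ≠ 1) (i : Fin N) :
    1 - 2 * (1 / (orderOf (s i) : ℝ)) ≤ 2 * nu s - N := by
  rw [W_eq]
  exact single_le_sum (f := fun i => 1 - 2 * (1 / (orderOf (s i) : ℝ)))
    (fun i _ => wt_nonneg s hs i) (mem_univ i)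

/-- The lower bound, with the estimates at the single points as a hypothesis. -/
theorem E0_aux (s : Fin N → G) (hs : ∀ i, s i ≠ 1) (B : Fin N → ℝ)
    (hB : ∀ i, ∑ g : G, ((2 * nu s - N) * (indIm (s i) g ^ 2 / (1 - 2 * (1 / (orderOf (s i) : ℝ)))) -
      indF (s i) g ^ 2 / 4) ≤ B i) :
    genus s ^ 2 - 1 + Nat.card G - Nat.card G * nu s - ∑ i, B i ≤
      ∑ g : G, ((chi s g).re ^ 2 - (chi s g).im ^ 2) := by
  classical
  obtain ⟨W, hW⟩ : ∃ W, W = 2 * nu s - N := ⟨_, rfl⟩
  rw [← hW] at hB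
  have hD : ∀ g : G, (chi s g).im ^ 2 ≤
      W * ∑ i, indIm (s i) g ^ 2 / (1 - 2 * (1 / (orderOf (s i) : ℝ))) := by
    intro g
    rw [chi_im, hW, W_eq]
    refine sum_sq_le_sum_mul_sum_of_sq_le_mul univ (fun i _ => wt_nonneg s hs i)
      (fun i _ => div_nonneg (sq_nonneg _) (wt_nonneg s hs i)) fun i _ => ?_
    rcases (order_ge s hs i).eq_or_lt with h | h
    · rw [indIm_two h.symm]
      simp
    · have h3 : (2 : ℝ) < orderOf (s i) := by exact_mod_cast h
      have h4 : 1 / (orderOf (s i) : ℝ) < 1 / 2 := one_div_lt_one_div_of_lt (by norm_num) h3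
      rw [mul_div_cancel₀]
      linarith
  -- the comparison for one element
  have hL : ∀ g : G, (if g = 1 then genus s ^ 2 - 1 else 0) + (1 - ∑ i, indF (s i) g -
      ∑ i, (W * (indIm (s i) g ^ 2 / (1 - 2 * (1 / (orderOf (s i) : ℝ)))) -
        indF (s i) g ^ 2 / 4)) ≤ (chi s g).re ^ 2 - (chi s g).im ^ 2 := by
    intro g
    by_cases hg : g = 1
    · subst hg
      rw [if_pos rfl, chi_one]
      simp [indIm_one, indF_one]
    · rw [if_neg hg, chi_re s hg]
      have h1 : ∑ i, indF (s i) g ^ 2 ≤ (∑ i, indF (s i) g) ^ 2 := by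
        refine sum_sq_le_sq_sum_of_nonneg fun i _ => ?_
        rw [indF]
        refine mul_nonneg (by positivity) (sum_nonneg fun x _ => ?_)
        rcases fP_cases (s i) (x⁻¹ * g * x) with h | h
        · exact h.1.ge
        · rw [h]; norm_num
      have h2 := hD g
      rw [mul_sum] at h2
      rw [sum_sub_distrib, ← sum_div]
      nlinarith
  have hS := sum_le_sum fun g (_ : g ∈ (univ : Finset G)) => hL g
  rw [sum_add_distrib, sum_ite_eq', if_pos (mem_univ _), sum_sub_distrib, sum_sub_distrib,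
    sum_comm (f := fun g i => indF (s i) g), sum_comm (f := fun g i =>
      W * (indIm (s i) g ^ 2 / (1 - 2 * (1 / (orderOf (s i) : ℝ)))) - indF (s i) g ^ 2 / 4)] at hS
  have h5 : ∑ i, ∑ g : G, indF (s i) g = Nat.card G * nu s := by
    rw [nu, mul_sum]
    exact sum_congr rfl fun i _ => sum_indF (s i)
  have h6 := sum_le_sum fun i (_ : i ∈ (univ : Finset (Fin N))) => hB i
  rw [h5, sum_const, card_univ, nsmul_eq_mul, mul_one, ← Nat.card_eq_fintype_card] at hS
  linarith

/-- The estimate at a point with an involution. -/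
theorem B_two {c : G} (hc : orderOf c = 2) (W w : ℝ) :
    ∑ g : G, (W * (indIm c g ^ 2 / w) - indF c g ^ 2 / 4) ≤ 0 := by
  refine sum_nonpos fun g _ => ?_
  rw [indIm_two hc]
  have := sq_nonneg (indF c g)
  norm_num
  linarith

/-- The estimate at a point, without the fixed points. -/
theorem B_weak {c : G} (hc : 3 ≤ orderOf c) {W : ℝ} (hW : 0 ≤ W) :
    ∑ g : G, (W * (indIm c g ^ 2 / (1 - 2 * (1 / (orderOf c : ℝ)))) - indF c g ^ 2 / 4) ≤
      (Nat.card G : ℝ) ^ 2 * (W * (1 - 1 / (orderOf c : ℝ)) / 12) := by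
  have hm : (3 : ℝ) ≤ orderOf c := by exact_mod_cast hc
  have hw : 0 < 1 - 2 * (1 / (orderOf c : ℝ)) := by
    have h4 : 1 / (orderOf c : ℝ) ≤ 1 / 3 := one_div_le_one_div_of_le (by norm_num) hm
    linarith
  have h1 := sum_indIm_sq c
  have h2 : ∑ g : G, (W * (indIm c g ^ 2 / (1 - 2 * (1 / (orderOf c : ℝ)))) - indF c g ^ 2 / 4) ≤
      ∑ g : G, W / (1 - 2 * (1 / (orderOf c : ℝ))) * indIm c g ^ 2 := by
    refine sum_le_sum fun g _ => ?_
    have := sq_nonneg (indF c g)
    have h3 : W * (indIm c g ^ 2 / (1 - 2 * (1 / (orderOf c : ℝ)))) =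
        W / (1 - 2 * (1 / (orderOf c : ℝ))) * indIm c g ^ 2 := by ring
    linarith
  refine h2.trans ?_
  rw [← mul_sum]
  refine (mul_le_mul_of_nonneg_left h1 (div_nonneg hW hw.le)).trans (le_of_eq ?_)
  have h5 : (orderOf c : ℝ) ≠ 0 := by linarith
  have h6 : (orderOf c : ℝ) - 2 ≠ 0 := by linarith
  have h7 : 1 - 2 * (1 / (orderOf c : ℝ)) = (orderOf c - 2) / orderOf c := by field_simp
  rw [h7]
  field_simp

/-- The estimate at a point, with the fixed points. -/
theorem B_strong {c : G} (hc : 3 ≤ orderOf c) {W : ℝ} (hW : 1 ≤ W)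
    (hW' : 1 - 2 * (1 / (orderOf c : ℝ)) ≤ W) :
    ∑ g : G, (W * (indIm c g ^ 2 / (1 - 2 * (1 / (orderOf c : ℝ)))) - indF c g ^ 2 / 4) ≤
      (Nat.card G : ℝ) ^ 2 * (W * (1 - 1 / (orderOf c : ℝ)) / 12 -
        (1 / (orderOf c : ℝ)) ^ 2 / 2) := by
  have hm : (3 : ℝ) ≤ orderOf c := by exact_mod_cast hc
  have hw : 0 < 1 - 2 * (1 / (orderOf c : ℝ)) := by
    have h4 : 1 / (orderOf c : ℝ) ≤ 1 / 3 := one_div_le_one_div_of_le (by norm_num) hm
    linarith
  have h1 := key hc (a := W / (1 - 2 * (1 / (orderOf c : ℝ)))) (div_nonneg (by linarith) hw.le) (by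
    intro k hk
    rcases hc.eq_or_lt with h | h
    · rw [← h] at hk ⊢
      rw [im_sq_three hk]
      push_cast
      norm_num
      linarith
    · have h2 := im_sq_ge_four (by omega : 4 ≤ orderOf c) hk
      have h3 : 1 ≤ W / (1 - 2 * (1 / (orderOf c : ℝ))) := by rwa [one_le_div hw]
      nlinarith)
  have h2 : ∑ g : G, (W * (indIm c g ^ 2 / (1 - 2 * (1 / (orderOf c : ℝ)))) - indF c g ^ 2 / 4) =
      ∑ g : G, (W / (1 - 2 * (1 / (orderOf c : ℝ))) * indIm c g ^ 2 - indF c g ^ 2 / 4) :=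
    sum_congr rfl fun g _ => by ring
  rw [h2]
  refine h1.trans (le_of_eq ?_)
  have h5 : (orderOf c : ℝ) ≠ 0 := by linarith
  have h6 : (orderOf c : ℝ) - 2 ≠ 0 := by linarith
  have h7 : 1 - 2 * (1 / (orderOf c : ℝ)) = (orderOf c - 2) / orderOf c := by field_simp
  rw [h7]
  field_simp

/-- `N = 5`. -/
theorem E0_five (s : Fin 5 → G) (hs : ∀ i, s i ≠ 1) :
    (Nat.card G : ℝ) ^ 2 * (mu12 (fun i => 1 / (orderOf (s i) : ℝ)) / 12) - Nat.card G ≤
      ∑ g : G, ((chi s g).re ^ 2 - (chi s g).im ^ 2) := by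
  classical
  set y : Fin 5 → ℝ := fun i => 1 / (orderOf (s i) : ℝ) with hy
  set n : ℝ := (Nat.card G : ℝ) with hn
  have hnu : nu s = 5 - ∑ i, y i := by
    rw [nu, sum_sub_distrib]
    simp only [sum_const, card_univ, Fintype.card_fin, nsmul_eq_mul, mul_one]
    push_cast
    rfl
  have hg : genus s = 1 + n * (nu s - 2) / 2 := genus_eq s
  have hy2 : ∀ i, y i = 1 / 2 ↔ orderOf (s i) = 2 := by
    intro i
    rw [hy]
    constructor
    · intro h
      have h1 : (orderOf (s i) : ℝ) = 2 := by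
        have h2 : (orderOf (s i) : ℝ) ≠ 0 := by exact_mod_cast (orderOf_pos (s i)).ne'
        field_simp at h
        linarith
      exact_mod_cast h1
    · intro h
      simp [h]
  have h3 : ∀ i, y i ≠ 1 / 2 → 3 ≤ orderOf (s i) := by
    intro i h
    have h1 := order_ge s hs i
    have h2 : orderOf (s i) ≠ 2 := fun h2 => h ((hy2 i).2 h2)
    omega
  have hWc : 2 * nu s - ((5 : ℕ) : ℝ) = 5 - 2 * ∑ i, y i := by rw [hnu]; push_cast; ring
  have hW0 : 0 ≤ 5 - 2 * ∑ i, y i := by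
    rw [← hWc, W_eq]
    exact sum_nonneg fun i _ => wt_nonneg s hs i
  rw [mu12]
  by_cases hc : (∑ i, y i) ≤ 2
  · rw [if_pos hc]
    have hE := E0_aux s hs (fun i => if y i = 1 / 2 then 0 else
        n ^ 2 * ((5 - 2 * ∑ i, y i) * (1 - y i) / 12 - y i ^ 2 / 2)) (by
      intro i
      by_cases h : y i = 1 / 2
      · simp only [if_pos h]
        exact B_two ((hy2 i).1 h) _ _
      · simp only [if_neg h]
        rw [hWc]
        exact B_strong (h3 i h) (by linarith) (by
          have := W_ge s hs i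
          rw [hWc] at this
          exact this))
    refine le_trans (le_of_eq ?_) hE
    have h4 : ∀ C : ℝ, ∑ i, (if y i = 1 / 2 then (0 : ℝ) else
        n ^ 2 * (C * (1 - y i) / 12 - y i ^ 2 / 2)) =
        n ^ 2 * (C * (∑ i, if y i = 1 / 2 then 0 else 1 - y i) / 12 -
          (∑ i, if y i = 1 / 2 then 0 else y i ^ 2) / 2) := by
      intro C
      rw [mul_sum, sum_div, sum_div, ← sum_sub_distrib, mul_sum]
      refine sum_congr rfl fun i _ => ?_
      split_ifs <;> ring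
    rw [h4, hg, hnu]
    ring
  · rw [if_neg hc]
    have hE := E0_aux s hs (fun i => if y i = 1 / 2 then 0 else
        n ^ 2 * ((5 - 2 * ∑ i, y i) * (1 - y i) / 12)) (by
      intro i
      by_cases h : y i = 1 / 2
      · simp only [if_pos h]
        exact B_two ((hy2 i).1 h) _ _
      · simp only [if_neg h]
        rw [hWc]
        exact B_weak (h3 i h) hW0)
    refine le_trans (le_of_eq ?_) hE
    have h4 : ∀ C : ℝ, ∑ i, (if y i = 1 / 2 then (0 : ℝ) else
        n ^ 2 * (C * (1 - y i) / 12)) =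
        n ^ 2 * (C * (∑ i, if y i = 1 / 2 then 0 else 1 - y i) / 12) := by
      intro C
      rw [mul_sum, sum_div, mul_sum]
      refine sum_congr rfl fun i _ => ?_
      split_ifs <;> ring
    rw [h4, hg, hnu]
    ring

end Pool.Agent.H82.CO
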