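import Pool.Agent.H82.CO.Final
import Pool.Agent.H82.CO.Five
import Pool.Agent.H82.CO.FS

set_option autoImplicit false

/-!
# The bounds for `N = 5`

Authors: helper82, helper92.
-/

namespace Pool.Agent.H82.CO

open Finset

variable {G : Type} [Group G] [Fintype G]

/-- The invariants in the tensor square, `N = 5`. -/
theorem tensor_five (s : Fin 5 → G) (hs : ∀ i, s i ≠ 1) :
    (Nat.card G : ℝ) / 16 - 1 ≤ (quadInv s + extInv s).re := by
  have hE := E0_five s hs
  obtain ⟨y, hy⟩ : ∃ y : Fin 5 → ℝ, y = fun i => 1 / (orderOf (s i) : ℝ) := ⟨_, rfl⟩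
  rw [← hy] at hE
  have hm : ∀ i, (0 : ℝ) < orderOf (s i) := fun i => by exact_mod_cast orderOf_pos (s i)
  have h0 : ∀ i, 0 < y i := fun i => by rw [hy]; exact one_div_pos.2 (hm i)
  have h1 : ∀ i, y i = 1 / 2 ∨ y i ≤ 1 / 3 := by
    intro i
    rw [hy]
    rcases (order_ge s hs i).eq_or_lt with h | h
    · left
      simp [← h]
    · right
      have h3 : (3 : ℝ) ≤ orderOf (s i) := by exact_mod_cast h
      exact one_div_le_one_div_of_le (by norm_num) h3
  have h2 := mu12_ge y h0 h1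
  obtain ⟨n, hn⟩ : ∃ n : ℝ, n = Nat.card G := ⟨_, rfl⟩
  have hn0 : 0 < n := by rw [hn]; exact_mod_cast Nat.card_pos
  have h4 : Nat.card G * (quadInv s + extInv s).re =
      ∑ g : G, ((chi s g).re ^ 2 - (chi s g).im ^ 2) := by
    have h2 : (1 / (2 * (Nat.card G : ℂ))) = ((1 / (2 * (Nat.card G : ℝ)) : ℝ) : ℂ) := by
      push_cast; rfl
    rw [quadInv, extInv, ← mul_add, ← sum_add_distrib, h2, Complex.re_ofReal_mul, Complex.re_sum]
    have h3 : ∀ g : G, (chi s g ^ 2 + chi s (g ^ 2) + (chi s g ^ 2 - chi s (g ^ 2))).re =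
        2 * ((chi s g).re ^ 2 - (chi s g).im ^ 2) := by
      intro g
      have h5 : chi s g ^ 2 + chi s (g ^ 2) + (chi s g ^ 2 - chi s (g ^ 2)) =
          chi s g * chi s g + chi s g * chi s g := by ring
      rw [h5, Complex.add_re, Complex.mul_re]
      ring
    rw [sum_congr rfl fun g _ => h3 g, ← mul_sum, ← hn]
    field_simp
  rw [← hn] at hE h4 ⊢
  have h6 : n * (n / 16 - 1) ≤ n * (quadInv s + extInv s).re := by nlinarith
  exact le_of_mul_le_mul_left h6 hn0

theorem bounds_five (s : Fin 5 → G) (hs : ∀ i, s i ≠ 1)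
    (hF : -(Nat.card G : ℝ) ≤ ∑ g : G, (chi s (g ^ 2)).re) (hd : (quadInv s).re ≤ 2) :
    Nat.card G ≤ 96 ∧ genus s < 89 := by
  have hE := E0_five s hs
  obtain ⟨y, hy⟩ : ∃ y : Fin 5 → ℝ, y = fun i => 1 / (orderOf (s i) : ℝ) := ⟨_, rfl⟩
  rw [← hy] at hE
  have hm : ∀ i, (0 : ℝ) < orderOf (s i) := fun i => by exact_mod_cast orderOf_pos (s i)
  have h0 : ∀ i, 0 < y i := fun i => by rw [hy]; exact one_div_pos.2 (hm i)
  have h1 : ∀ i, y i = 1 / 2 ∨ y i ≤ 1 / 3 := by
    intro i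
    rw [hy]
    rcases (order_ge s hs i).eq_or_lt with h | h
    · left
      simp [← h]
    · right
      have h3 : (3 : ℝ) ≤ orderOf (s i) := by exact_mod_cast h
      exact one_div_le_one_div_of_le (by norm_num) h3
  have h2 := mu12_ge y h0 h1
  have h3 := mu12_ge' y h0 h1
  obtain ⟨n, hn⟩ : ∃ n : ℝ, n = Nat.card G := ⟨_, rfl⟩
  have hn0 : 0 < n := by rw [hn]; exact_mod_cast Nat.card_pos
  have hnu : nu s = 5 - ∑ i, y i := by
    rw [nu, sum_sub_distrib, hy]
    simp only [sum_const, card_univ, Fintype.card_fin, nsmul_eq_mul, mul_one]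
    push_cast
    rfl
  have hg := genus_eq s
  have h4 : 2 * Nat.card G * (quadInv s).re =
      ∑ g : G, ((chi s g).re ^ 2 - (chi s g).im ^ 2) + ∑ g : G, (chi s (g ^ 2)).re := by
    have h2 : (1 / (2 * (Nat.card G : ℂ))) = ((1 / (2 * (Nat.card G : ℝ)) : ℝ) : ℂ) := by
      push_cast; rfl
    rw [quadInv, h2, Complex.re_ofReal_mul, Complex.re_sum, ← sum_add_distrib]
    have h3 : ∀ g : G, (chi s g ^ 2 + chi s (g ^ 2)).re =
        (chi s g).re ^ 2 - (chi s g).im ^ 2 + (chi s (g ^ 2)).re := by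
      intro g
      rw [Complex.add_re, sq, Complex.mul_re]
      ring
    rw [sum_congr rfl fun g _ => h3 g, ← hn]
    field_simp
  rw [← hn] at hE hF h4 hg
  have h5 : n * mu12 y ≤ 72 := by
    have h6 : n * (n * mu12 y) ≤ n * 72 := by nlinarith
    exact le_of_mul_le_mul_left h6 hn0
  have h7 : n ≤ 96 := by nlinarith
  refine ⟨by rw [hn] at h7; exact_mod_cast h7, ?_⟩
  rw [hg, hnu]
  nlinarith

end Pool.Agent.H82.CO
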