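import Pool.Agent.H82.CO.Odd

set_option autoImplicit false

/-!
# Fixed points

Authors: helper82, helper92.
-/

namespace Pool.Agent.H82.CO

open Finset ComplexConjugate

theorem eps_eq {m k : ℕ} (hk : 0 < k) (hkm : k < m) : eps m k = 1 / (zeta m ^ k - 1) := by
  have hm : 0 < m := by omega
  have hm' : (m : ℂ) ≠ 0 := by exact_mod_cast hm.ne'
  set w := zeta m ^ k with hw
  have hw1 : w - 1 ≠ 0 := by
    intro h
    have h1 : zeta m ^ k = zeta m ^ 0 := by rw [pow_zero, ← hw]; linear_combination h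
    have := (zeta_prim hm).pow_inj hkm hm h1
    omega
  have hwm : w ^ m = 1 := by rw [hw, ← pow_mul, mul_comm, pow_mul, zeta_pow hm, one_pow]
  have hg : ∑ a ∈ range m, w ^ a = 0 := by
    have h1 := geom_sum_mul w m
    rw [hwm, sub_self] at h1
    exact (mul_eq_zero.1 h1).resolve_right hw1
  have h1 := sum_mul_pow w m
  rw [hwm, hg, mul_zero, sub_zero, mul_one] at h1
  have h2 : eps m k = (∑ a ∈ range m, (a : ℂ) * w ^ a) / m := by
    rw [eps, sum_div]
    refine sum_congr rfl fun a _ => ?_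
    rw [hw, ← pow_mul, mul_comm a k]
    ring
  rw [h2, eq_div_iff hw1, div_mul_eq_mul_div, h1, div_self hm']

/-- `|ζ ^ k - 1| ^ 2 = 2 - 2 cos (2 π / m)` for `k = 1` and `k = m - 1`. -/
theorem im_sq_eq {m k : ℕ} (hm : 2 ≤ m) (hk : k = 1 ∨ k = m - 1) :
    (eps m k).im ^ 2 = 1 / (2 - 2 * Real.cos (2 * Real.pi / m)) - 1 / 4 := by
  have hm0 : 0 < m := by omega
  have hk0 : 0 < k := by omega
  have hkm : k < m := by omega
  have h1 : Complex.normSq (eps m k) = (eps m k).re ^ 2 + (eps m k).im ^ 2 := by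
    rw [Complex.normSq_apply]
    ring
  rw [re_eps hk0 hkm] at h1
  have hz : (zeta m).re = Real.cos (2 * Real.pi / m) := by
    have h3 : zeta m = Complex.exp (((2 * Real.pi / m : ℝ) : ℂ) * Complex.I) := by
      rw [zeta]
      congr 1
      push_cast
      ring
    rw [h3, Complex.exp_ofReal_mul_I_re]
  have hzk : (zeta m ^ k).re = Real.cos (2 * Real.pi / m) := by
    rcases hk with rfl | rfl
    · rw [pow_one, hz]
    · have h4 : zeta m ^ (m - 1) = conj (zeta m) := by
        rw [conj_zeta hm0]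
        apply eq_inv_of_mul_eq_one_left
        rw [← pow_succ, Nat.sub_add_cancel hm0, zeta_pow hm0]
      rw [h4, Complex.conj_re, hz]
  have hn : Complex.normSq (zeta m ^ k) = 1 := by
    have h : ‖zeta m‖ = 1 := Complex.norm_eq_one_of_pow_eq_one (zeta_pow hm0) hm0.ne'
    rw [Complex.normSq_eq_norm_sq, norm_pow, h]
    simp
  have h2 : Complex.normSq (eps m k) = 1 / (2 - 2 * Real.cos (2 * Real.pi / m)) := by
    rw [eps_eq hk0 hkm, map_div₀, map_one]
    congr 1
    rw [Complex.normSq_sub, hn, Complex.normSq_one, map_one, mul_one, hzk]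
    ring
  rw [h2] at h1
  linarith

theorem im_sq_ge_four {m k : ℕ} (hm : 4 ≤ m) (hk : k = 1 ∨ k = m - 1) :
    1 / 4 ≤ (eps m k).im ^ 2 := by
  rw [im_sq_eq (by omega) hk]
  have hm' : (4 : ℝ) ≤ m := by exact_mod_cast hm
  have h1 : 2 * Real.pi / m ≤ Real.pi / 2 := by
    rw [div_le_div_iff₀ (by linarith) (by norm_num)]
    nlinarith [Real.pi_pos]
  have h2 : 0 < 2 * Real.pi / m := by positivity
  have h3 : 0 ≤ Real.cos (2 * Real.pi / m) :=
    Real.cos_nonneg_of_mem_Icc ⟨by linarith [Real.pi_pos], h1⟩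
  have h4 : Real.cos (2 * Real.pi / m) < 1 := by
    rw [← Real.cos_zero]
    exact Real.cos_lt_cos_of_nonneg_of_le_pi (le_refl 0) (by linarith [Real.pi_pos]) h2
  have h5 : 1 / 2 ≤ 1 / (2 - 2 * Real.cos (2 * Real.pi / m)) := by
    apply one_div_le_one_div_of_le <;> linarith
  linarith

theorem im_sq_three {k : ℕ} (hk : k = 1 ∨ k = 3 - 1) : (eps 3 k).im ^ 2 = 1 / 12 := by
  rw [im_sq_eq (by norm_num) hk]
  have h : Real.cos (2 * Real.pi / (3 : ℕ)) = -1 / 2 := by
    have h1 : 2 * Real.pi / (3 : ℕ) = Real.pi - Real.pi / 3 := by push_cast; ring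
    rw [h1, Real.cos_pi_sub, Real.cos_pi_div_three]
    norm_num
  rw [h]
  norm_num

variable {G : Type} [Group G] [Fintype G] {N : ℕ}

open Classical in
/-- The indicator function of the powers of `c` different from `1`. -/
noncomputable def fP (c : G) (h : G) : ℝ :=
  ∑ k ∈ range (orderOf c), if c ^ k = h ∧ k ≠ 0 then 1 else 0

/-- The number of fixed points of `g` over the branch point with local monodromy `c`, for
`g ≠ 1`. -/
noncomputable def indF (c : G) (g : G) : ℝ := (1 / (orderOf c : ℝ)) * ∑ x : G, fP c (x⁻¹ * g * x)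

omit [Fintype G] in
theorem fP_pow (c : G) {k : ℕ} (hk : k < orderOf c) (hk0 : k ≠ 0) : fP c (c ^ k) = 1 := by
  classical
  rw [fP, sum_eq_single k]
  · rw [if_pos ⟨rfl, hk0⟩]
  · intro j hj hjk
    rw [if_neg]
    rintro ⟨h, -⟩
    exact hjk (pow_injOn_Iio_orderOf (Set.mem_Iio.2 (mem_range.1 hj)) (Set.mem_Iio.2 hk) h)
  · intro h
    exact absurd (mem_range.2 hk) h

omit [Fintype G] in
theorem fP_eq_zero {c h : G} (hh : ∀ k, k < orderOf c → k ≠ 0 → c ^ k ≠ h) : fP c h = 0 := by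
  classical
  rw [fP]
  refine sum_eq_zero fun k hk => ?_
  rw [if_neg]
  rintro ⟨h1, h2⟩
  exact hh k (mem_range.1 hk) h2 h1

theorem fP_cases (c h : G) : (fP c h = 0 ∧ fIm c h = 0) ∨ fP c h = 1 := by
  classical
  by_cases hh : ∃ k, k < orderOf c ∧ k ≠ 0 ∧ c ^ k = h
  · obtain ⟨k, h1, h2, rfl⟩ := hh
    exact Or.inr (fP_pow c h1 h2)
  · push Not at hh
    left
    refine ⟨fP_eq_zero hh, ?_⟩
    rw [fIm]
    refine sum_eq_zero fun k hk => ?_
    split_ifs with h1
    · by_cases hk0 : k = 0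
      · rw [hk0, eps_zero (orderOf_pos c), Complex.ofReal_im]
      · exact absurd h1 (hh k (mem_range.1 hk) hk0)
    · rfl

theorem sum_indF (c : G) : ∑ g : G, indF c g = (Nat.card G : ℝ) * (1 - 1 / (orderOf c : ℝ)) := by
  classical
  have hm : (orderOf c : ℝ) ≠ 0 := by exact_mod_cast (orderOf_pos c).ne'
  have h1 : ∑ h : G, fP c h = (orderOf c : ℝ) - 1 := by
    simp only [fP]
    rw [sum_comm]
    have h2 : ∀ k ∈ range (orderOf c), (∑ h : G, if c ^ k = h ∧ k ≠ 0 then (1 : ℝ) else 0) =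
        if k ≠ 0 then 1 else 0 := by
      intro k _
      by_cases hk : k = 0
      · simp [hk]
      · simp [hk]
    rw [sum_congr rfl h2]
    obtain ⟨n, hn⟩ : ∃ n, orderOf c = n + 1 := ⟨orderOf c - 1, by have := orderOf_pos c; omega⟩
    rw [hn, sum_range_succ']
    simp
  have h3 : ∀ x : G, ∑ g : G, fP c (x⁻¹ * g * x) = ∑ h : G, fP c h := by
    intro x
    exact Fintype.sum_equiv (MulAut.conj x⁻¹).toEquiv _ _ fun g => by simp
  simp only [indF]
  rw [← mul_sum, sum_comm, sum_congr rfl fun x _ => h3 x, sum_const, card_univ, nsmul_eq_mul, h1,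
    ← Nat.card_eq_fintype_card]
  field_simp

theorem indF_one (c : G) : indF c 1 = 0 := by
  rw [indF]
  have h : ∀ x : G, fP c (x⁻¹ * 1 * x) = 0 := by
    intro x
    apply fP_eq_zero
    intro k hk hk0 h1
    rw [mul_one, inv_mul_cancel, ← orderOf_dvd_iff_pow_eq_one] at h1
    exact hk0 (Nat.eq_zero_of_dvd_of_lt h1 hk)
  rw [sum_congr rfl fun x _ => h x]
  simp

theorem chi_re (s : Fin N → G) {g : G} (hg : g ≠ 1) :
    (chi s g).re = 1 - (∑ i, indF (s i) g) / 2 := by
  classical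
  have h0 : ∀ (p : Prop) [Decidable p] (z : ℂ), (if p then z else 0).re = if p then z.re else 0 := by
    intro p _ z
    split_ifs <;> simp
  rw [chi, if_neg hg, sub_zero, Complex.add_re, Complex.one_re, Complex.re_sum, sub_eq_add_neg,
    sum_div, ← sum_neg_distrib]
  congr 1
  refine sum_congr rfl fun i _ => ?_
  have h1 : (1 / (orderOf (s i) : ℂ)) = ((1 / (orderOf (s i) : ℝ) : ℝ) : ℂ) := by push_cast; rfl
  rw [h1, Complex.re_ofReal_mul, indF, mul_div_assoc, ← mul_neg]
  congr 1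
  rw [Complex.re_sum, sum_div, ← sum_neg_distrib]
  refine sum_congr rfl fun x _ => ?_
  rw [Complex.re_sum, fP, sum_div, ← sum_neg_distrib]
  refine sum_congr rfl fun k hk => ?_
  rw [h0]
  have h2 : x * s i ^ k * x⁻¹ = g ↔ s i ^ k = x⁻¹ * g * x := by
    constructor
    · rintro rfl
      group
    · intro h
      rw [h]
      group
  simp only [h2]
  by_cases h3 : s i ^ k = x⁻¹ * g * x
  · have hk0 : k ≠ 0 := by
      rintro rfl
      apply hg
      rw [pow_zero] at h3
      have h4 : g = x * (x⁻¹ * g * x) * x⁻¹ := by group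
      rw [h4, ← h3]
      group
    rw [if_pos h3, if_pos ⟨h3, hk0⟩, re_eps (Nat.pos_of_ne_zero hk0) (mem_range.1 hk)]
    ring
  · rw [if_neg h3, if_neg (fun h => h3 h.1)]
    simp

end Pool.Agent.H82.CO
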