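import Pool.Agent.H82.CO.Defs

set_option autoImplicit false

/-!
# The sums `eps m k`: Parseval, real and imaginary parts
-/

namespace Pool.Agent.H82.CO

open Finset ComplexConjugate

theorem zeta_prim {m : ℕ} (hm : 0 < m) : IsPrimitiveRoot (zeta m) m :=
  Complex.isPrimitiveRoot_exp m hm.ne'

theorem zeta_pow {m : ℕ} (hm : 0 < m) : zeta m ^ m = 1 := (zeta_prim hm).pow_eq_one

theorem conj_zeta {m : ℕ} (hm : 0 < m) : conj (zeta m) = (zeta m)⁻¹ := by
  have h : ‖zeta m‖ = 1 := Complex.norm_eq_one_of_pow_eq_one (zeta_pow hm) hm.ne'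
  rw [Complex.inv_def, Complex.normSq_eq_norm_sq, h]
  simp

theorem zeta_ne {m : ℕ} (hm : 0 < m) : zeta m ≠ 0 := (zeta_prim hm).ne_zero hm.ne'

/-- Orthogonality. -/
theorem ortho {m : ℕ} (hm : 0 < m) {a b : ℕ} (ha : a < m) (hb : b < m) :
    ∑ k ∈ range m, zeta m ^ (a * k) * conj (zeta m ^ (b * k)) = if a = b then (m : ℂ) else 0 := by
  have h0 : ∀ k, zeta m ^ (a * k) * conj (zeta m ^ (b * k)) =
      (zeta m ^ a * (zeta m ^ b)⁻¹) ^ k := by
    intro k
    rw [map_pow, conj_zeta hm, pow_mul, mul_pow, inv_pow, inv_pow, pow_mul]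
  rw [Finset.sum_congr rfl fun k _ => h0 k]
  split_ifs with h
  · subst h
    rw [mul_inv_cancel₀ (pow_ne_zero _ (zeta_ne hm))]
    simp
  · have hw : zeta m ^ a * (zeta m ^ b)⁻¹ - 1 ≠ 0 := by
      intro h1
      apply h
      have h2 : zeta m ^ a = zeta m ^ b := by
        have h3 : zeta m ^ a * (zeta m ^ b)⁻¹ = 1 := by linear_combination h1
        exact (mul_inv_eq_one₀ (pow_ne_zero _ (zeta_ne hm))).1 h3
      exact (zeta_prim hm).pow_inj ha hb h2
    have h1 := geom_sum_mul (zeta m ^ a * (zeta m ^ b)⁻¹) m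
    have h2 : (zeta m ^ a * (zeta m ^ b)⁻¹) ^ m = 1 := by
      rw [mul_pow, inv_pow, ← pow_mul, ← pow_mul, mul_comm a, mul_comm b, pow_mul, pow_mul,
        zeta_pow hm]
      simp
    rw [h2, sub_self] at h1
    exact (mul_eq_zero.1 h1).resolve_right hw

theorem sum_sq_range (m : ℕ) :
    ∑ a ∈ range m, (a : ℝ) ^ 2 = (m - 1) * m * (2 * m - 1) / 6 := by
  induction m with
  | zero => simp
  | succ m ih => rw [sum_range_succ, ih]; push_cast; ring

/-- Parseval. -/
theorem sum_normSq {m : ℕ} (hm : 0 < m) :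
    ∑ k ∈ range m, Complex.normSq (eps m k) = ((m : ℝ) - 1) * (2 * m - 1) / 6 := by
  have hm' : (m : ℂ) ≠ 0 := by exact_mod_cast hm.ne'
  have h1 : ∀ k, ((Complex.normSq (eps m k) : ℝ) : ℂ) = ∑ a ∈ range m, ∑ b ∈ range m,
      ((a : ℂ) / m) * ((b : ℂ) / m) * (zeta m ^ (a * k) * conj (zeta m ^ (b * k))) := by
    intro k
    rw [← Complex.mul_conj, eps, map_sum, sum_mul_sum]
    refine sum_congr rfl fun a _ => sum_congr rfl fun b _ => ?_
    rw [map_mul, map_div₀]
    simp only [Complex.conj_natCast]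
    ring
  have h2 : ((∑ k ∈ range m, Complex.normSq (eps m k) : ℝ) : ℂ) =
      ((((m : ℝ) - 1) * (2 * m - 1) / 6 : ℝ) : ℂ) := by
    rw [Complex.ofReal_sum, sum_congr rfl fun k _ => h1 k, sum_comm]
    have h3 : ∀ a ∈ range m, ∑ k ∈ range m, ∑ b ∈ range m,
        ((a : ℂ) / m) * ((b : ℂ) / m) * (zeta m ^ (a * k) * conj (zeta m ^ (b * k))) =
        (((a : ℝ) ^ 2 / m : ℝ) : ℂ) := by
      intro a ha
      rw [sum_comm]
      have h4 : ∀ b ∈ range m, ∑ k ∈ range m,
          ((a : ℂ) / m) * ((b : ℂ) / m) * (zeta m ^ (a * k) * conj (zeta m ^ (b * k))) =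
          if a = b then ((a : ℂ) / m) * ((b : ℂ) / m) * m else 0 := by
        intro b hb
        rw [← mul_sum, ortho hm (mem_range.1 ha) (mem_range.1 hb)]
        split_ifs <;> simp
      rw [sum_congr rfl h4, sum_ite_eq, if_pos ha]
      push_cast
      field_simp
    rw [sum_congr rfl h3, ← Complex.ofReal_sum, ← sum_div, sum_sq_range]
    congr 1
    have : (m : ℝ) ≠ 0 := by exact_mod_cast hm.ne'
    field_simp
  exact_mod_cast h2

theorem sum_mul_pow (w : ℂ) (n : ℕ) :
    (∑ a ∈ range n, (a : ℂ) * w ^ a) * (w - 1) = n * w ^ n - w * ∑ a ∈ range n, w ^ a := by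
  induction n with
  | zero => simp
  | succ n ih =>
    rw [sum_range_succ, sum_range_succ, add_mul, ih]
    push_cast
    ring

theorem re_eps {m k : ℕ} (hk : 0 < k) (hkm : k < m) : (eps m k).re = -1 / 2 := by
  have hm : 0 < m := by omega
  have hm' : (m : ℂ) ≠ 0 := by exact_mod_cast hm.ne'
  set w := zeta m ^ k with hw
  have hw1 : w - 1 ≠ 0 := by
    intro h
    have h1 : zeta m ^ k = zeta m ^ 0 := by rw [pow_zero, ← hw]; linear_combination h
    have := (zeta_prim hm).pow_inj hkm hm h1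
    omega
  have hwm : w ^ m = 1 := by rw [hw, ← pow_mul, mul_comm, pow_mul, zeta_pow hm, one_pow]
  have hg : ∑ a ∈ range m, w ^ a = 0 := by
    have h1 := geom_sum_mul w m
    rw [hwm, sub_self] at h1
    exact (mul_eq_zero.1 h1).resolve_right hw1
  have he : eps m k = 1 / (w - 1) := by
    have h1 := sum_mul_pow w m
    rw [hwm, hg, mul_zero, sub_zero, mul_one] at h1
    have h2 : eps m k = (∑ a ∈ range m, (a : ℂ) * w ^ a) / m := by
      rw [eps, sum_div]
      refine sum_congr rfl fun a _ => ?_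
      rw [hw, ← pow_mul, mul_comm a k]
      ring
    rw [h2, eq_div_iff hw1, div_mul_eq_mul_div, h1, div_self hm']
  have hw0 : w ≠ 0 := pow_ne_zero _ (zeta_ne hm)
  have hc : conj w = w⁻¹ := by rw [hw, map_pow, conj_zeta hm, inv_pow]
  have h3 : eps m k + conj (eps m k) = -1 := by
    rw [he, map_div₀, map_sub, map_one, hc]
    have h4 : w⁻¹ - 1 ≠ 0 := by
      intro h
      apply hw1
      field_simp at h
      linear_combination -h
    have h5 : (1 : ℂ) - w ≠ 0 := fun h => hw1 (by linear_combination -h)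
    have h6 : 1 / (w⁻¹ - 1) = w / (1 - w) := by
      rw [div_eq_div_iff h4 h5]
      field_simp
    rw [h6]
    have h7 : w / (1 - w) = -(w / (w - 1)) := by
      rw [← neg_sub w 1, div_neg]
    rw [h7]
    field_simp
    ring
  have h8 := congrArg Complex.re h3
  rw [Complex.add_re, Complex.conj_re] at h8
  simp only [Complex.neg_re, Complex.one_re] at h8
  linarith

theorem eps_zero {m : ℕ} (hm : 0 < m) : eps m 0 = (((m : ℝ) - 1) / 2 : ℝ) := by
  have hm' : (m : ℂ) ≠ 0 := by exact_mod_cast hm.ne'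
  have h1 : ∀ n : ℕ, ∑ a ∈ range n, (a : ℂ) = n * (n - 1) / 2 := by
    intro n
    induction n with
    | zero => simp
    | succ n ih => rw [sum_range_succ, ih]; push_cast; ring
  rw [eps]
  simp only [mul_zero, pow_zero, mul_one]
  rw [← sum_div, h1]
  push_cast
  field_simp

/-- The imaginary parts. -/
theorem sum_im_sq {m : ℕ} (hm : 0 < m) :
    ∑ k ∈ range m, (eps m k).im ^ 2 = ((m : ℝ) - 1) * (m - 2) / 12 := by
  have h1 := sum_normSq hm
  have h2 : ∀ k ∈ range m, Complex.normSq (eps m k) = (eps m k).re ^ 2 + (eps m k).im ^ 2 := by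
    intro k _
    rw [Complex.normSq_apply]
    ring
  rw [sum_congr rfl h2, sum_add_distrib] at h1
  have h3 : ∑ k ∈ range m, (eps m k).re ^ 2 = (m : ℝ) * (m - 1) / 4 := by
    obtain ⟨n, rfl⟩ : ∃ n, m = n + 1 := ⟨m - 1, by omega⟩
    rw [sum_range_succ', eps_zero hm, Complex.ofReal_re]
    have h4 : ∀ k ∈ range n, (eps (n + 1) (k + 1)).re ^ 2 = 1 / 4 := by
      intro k hk
      rw [re_eps (by omega) (by have := mem_range.1 hk; omega)]
      norm_num
    rw [sum_congr rfl h4, sum_const, card_range, nsmul_eq_mul]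
    push_cast
    ring
  rw [h3] at h1
  linarith

end Pool.Agent.H82.CO
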