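import Pool.Agent.H82.CO.Fix

set_option autoImplicit false

/-!
# Bounds for the cotangents
-/

namespace Pool.Agent.H82.CO

open Finset

theorem normSq_eps {m k : ℕ} (hk : 0 < k) (hkm : k < m) :
    Complex.normSq (eps m k) = 1 / (2 * Real.sin (Real.pi * k / m)) ^ 2 := by
  have hm0 : 0 < m := by omega
  have hzk : (zeta m ^ k).re = Real.cos (2 * (Real.pi * k / m)) := by
    have h3 : zeta m ^ k = Complex.exp (((2 * (Real.pi * k / m) : ℝ) : ℂ) * Complex.I) := by
      rw [zeta, ← Complex.exp_nat_mul]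
      congr 1
      push_cast
      ring
    rw [h3, Complex.exp_ofReal_mul_I_re]
  have hn : Complex.normSq (zeta m ^ k) = 1 := by
    have h : ‖zeta m‖ = 1 := Complex.norm_eq_one_of_pow_eq_one (zeta_pow hm0) hm0.ne'
    rw [Complex.normSq_eq_norm_sq, norm_pow, h]
    simp
  rw [eps_eq hk hkm, map_div₀, map_one]
  congr 1
  rw [Complex.normSq_sub, hn, Complex.normSq_one, map_one, mul_one, hzk, Real.cos_two_mul]
  have := Real.sin_sq_add_cos_sq (Real.pi * k / m)
  nlinarith

theorem sin_ge {m k : ℕ} (hk : 0 < k) (hkm : k < m) :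
    2 * ((min k (m - k) : ℕ) : ℝ) / m ≤ Real.sin (Real.pi * k / m) := by
  have hm : (0 : ℝ) < m := by exact_mod_cast (by omega : 0 < m)
  have key : ∀ j : ℕ, 2 * j ≤ m → 2 * (j : ℝ) / m ≤ Real.sin (Real.pi * j / m) := by
    intro j hj
    have hj' : 2 * (j : ℝ) ≤ m := by exact_mod_cast hj
    have h1 : 0 ≤ Real.pi * j / m := by positivity
    have h2 : Real.pi * j / m ≤ Real.pi / 2 := by
      rw [div_le_div_iff₀ hm (by norm_num)]
      nlinarith [Real.pi_pos]
    refine le_trans (le_of_eq ?_) (Real.mul_le_sin h1 h2)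
    have := Real.pi_ne_zero
    field_simp
  rcases Nat.le_total (2 * k) m with h | h
  · rw [min_eq_left (by omega)]
    exact key k h
  · rw [min_eq_right (by omega)]
    have h1 := key (m - k) (by omega)
    have h2 : Real.pi * ((m - k : ℕ) : ℝ) / m = Real.pi - Real.pi * k / m := by
      rw [Nat.cast_sub hkm.le]
      field_simp
    rw [h2, Real.sin_pi_sub] at h1
    exact h1

theorem abs_im_le {m k : ℕ} (hk : 0 < k) (hkm : k < m) :
    |(eps m k).im| ≤ m / 4 * (1 / ((min k (m - k) : ℕ) : ℝ)) := by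
  have hm : (0 : ℝ) < m := by exact_mod_cast (by omega : 0 < m)
  have hj : (0 : ℝ) < ((min k (m - k) : ℕ) : ℝ) := by
    exact_mod_cast (by omega : 0 < min k (m - k))
  have h1 : (eps m k).im ^ 2 ≤ Complex.normSq (eps m k) := by
    rw [Complex.normSq_apply]
    nlinarith [sq_nonneg (eps m k).re]
  have h2 := sin_ge hk hkm
  have h3 : 0 < 2 * ((min k (m - k) : ℕ) : ℝ) / m := by positivity
  rw [normSq_eps hk hkm] at h1
  have h4 : 1 / (2 * Real.sin (Real.pi * k / m)) ^ 2 ≤
      (m / 4 * (1 / ((min k (m - k) : ℕ) : ℝ))) ^ 2 := by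
    have h5 : 1 / (2 * Real.sin (Real.pi * k / m)) ^ 2 ≤
        1 / (2 * (2 * ((min k (m - k) : ℕ) : ℝ) / m)) ^ 2 := by
      apply one_div_le_one_div_of_le (by positivity)
      apply pow_le_pow_left₀ (by positivity)
      linarith
    refine h5.trans (le_of_eq ?_)
    field_simp
    norm_num
  have h6 : 0 ≤ m / 4 * (1 / ((min k (m - k) : ℕ) : ℝ)) := by positivity
  exact abs_le_of_sq_le_sq (h1.trans h4) h6

/-- Reflection. -/
theorem sum_refl (f : ℕ → ℝ) (h0 : f 0 = 0) (hf : ∀ j, 0 ≤ f j) (m : ℕ) :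
    ∑ k ∈ range m, (if k = 0 then 0 else f (min k (m - k))) ≤
      2 * ∑ j ∈ range m, f (j + 1) := by
  have h1 : ∀ k ∈ range m, (if k = 0 then 0 else f (min k (m - k))) ≤ f k + f (m - k) := by
    intro k hk
    split_ifs with h
    · exact add_nonneg (hf _) (hf _)
    · rcases le_total k (m - k) with h2 | h2
      · rw [min_eq_left h2]; linarith [hf (m - k)]
      · rw [min_eq_right h2]; linarith [hf k]
  refine (sum_le_sum h1).trans ?_
  rw [sum_add_distrib]
  have h2 : ∑ k ∈ range m, f (m - k) = ∑ j ∈ range m, f (j + 1) := by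
    rw [← sum_range_reflect]
    refine sum_congr rfl fun k hk => ?_
    congr 1
    have := mem_range.1 hk
    omega
  have h3 : ∑ k ∈ range m, f k ≤ ∑ j ∈ range m, f (j + 1) := by
    cases m with
    | zero => simp
    | succ n =>
      rw [sum_range_succ', h0, add_zero, sum_range_succ]
      linarith [hf (n + 1)]
  linarith

theorem head_sum (T m : ℕ) :
    ∑ j ∈ range m, (if j + 1 ≤ T then 1 / ((j + 1 : ℕ) : ℝ) else 0) ≤
      ∑ j ∈ range T, 1 / ((j + 1 : ℕ) : ℝ) := by
  rw [← sum_filter]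
  refine sum_le_sum_of_subset_of_nonneg ?_ fun j _ _ => by positivity
  intro j hj
  rw [mem_filter] at hj
  exact mem_range.2 (by omega)

theorem tail_sum {T : ℕ} (hT : 0 < T) (m : ℕ) :
    ∑ j ∈ range m, (if T < j + 1 then 1 / ((j + 1 : ℕ) : ℝ) ^ 2 else 0) ≤
      1 / (T : ℝ) - 1 / ((max m T : ℕ) : ℝ) := by
  induction m with
  | zero => simp
  | succ n ih =>
    rw [sum_range_succ]
    have hT' : (0 : ℝ) < T := by exact_mod_cast hT
    by_cases h : T < n + 1
    · rw [if_pos h, max_eq_left (by omega)]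
      rw [max_eq_left (by omega)] at ih
      have hn : (0 : ℝ) < n := by exact_mod_cast (by omega : 0 < n)
      have h1 : 1 / ((n + 1 : ℕ) : ℝ) ^ 2 ≤ 1 / (n : ℝ) - 1 / ((n + 1 : ℕ) : ℝ) := by
        push_cast
        rw [div_sub_div _ _ hn.ne' (by positivity), div_le_div_iff₀ (by positivity) (by positivity)]
        nlinarith
      linarith
    · rw [if_neg h, add_zero, max_eq_right (by omega)]
      rw [max_eq_right (by omega)] at ih
      exact ih

/-- The part of the cotangents with `min k (m - k) ≤ T`. -/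
noncomputable def ah (T m k : ℕ) : ℝ := if min k (m - k) ≤ T then (eps m k).im else 0

/-- The other part. -/
noncomputable def at' (T m k : ℕ) : ℝ := if min k (m - k) ≤ T then 0 else (eps m k).im

theorem ah_add (T m k : ℕ) : (eps m k).im = ah T m k + at' T m k := by
  rw [ah, at']
  split_ifs <;> simp

theorem im_zero {m : ℕ} (hm : 0 < m) : (eps m 0).im = 0 := by
  rw [eps_zero hm, Complex.ofReal_im]

theorem sum_ah {T m : ℕ} (hm : 0 < m) :
    ∑ k ∈ range m, |ah T m k| ≤ m / 2 * ∑ j ∈ range T, 1 / ((j + 1 : ℕ) : ℝ) := by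
  have hm' : (0 : ℝ) < m := by exact_mod_cast hm
  have h1 : ∀ k ∈ range m, |ah T m k| ≤ m / 4 * (if k = 0 then 0 else
      (fun j : ℕ => if j = 0 then (0 : ℝ) else if j ≤ T then 1 / (j : ℝ) else 0)
        (min k (m - k))) := by
    intro k hk
    have hkm := mem_range.1 hk
    by_cases h0 : k = 0
    · subst h0
      rw [ah, im_zero hm]
      simp
    · rw [if_neg h0, ah]
      have hmin : min k (m - k) ≠ 0 := by omega
      simp only [if_neg hmin]
      split_ifs with h2
      · exact abs_im_le (Nat.pos_of_ne_zero h0) hkm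
      · simp
  refine (sum_le_sum h1).trans ?_
  rw [← mul_sum]
  have h2 := sum_refl (fun j : ℕ => if j = 0 then (0 : ℝ) else if j ≤ T then 1 / (j : ℝ) else 0)
    (by simp) (fun j => by
      split_ifs <;> positivity) m
  have h3 : ∑ j ∈ range m, (fun j : ℕ => if j = 0 then (0 : ℝ) else
      if j ≤ T then 1 / (j : ℝ) else 0) (j + 1) ≤ ∑ j ∈ range T, 1 / ((j + 1 : ℕ) : ℝ) := by
    refine le_trans (le_of_eq ?_) (head_sum T m)
    refine sum_congr rfl fun j _ => ?_
    simp
  nlinarith

theorem sum_at {T m : ℕ} (hT : 0 < T) (hm : 0 < m) :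
    ∑ k ∈ range m, at' T m k ^ 2 ≤ (m : ℝ) ^ 2 / (8 * T) := by
  have hm' : (0 : ℝ) < m := by exact_mod_cast hm
  have hT' : (0 : ℝ) < T := by exact_mod_cast hT
  have h1 : ∀ k ∈ range m, at' T m k ^ 2 ≤ (m : ℝ) ^ 2 / 16 * (if k = 0 then 0 else
      (fun j : ℕ => if T < j then 1 / (j : ℝ) ^ 2 else 0) (min k (m - k))) := by
    intro k hk
    have hkm := mem_range.1 hk
    by_cases h0 : k = 0
    · subst h0
      rw [at', im_zero hm]
      simp
    · rw [if_neg h0, at']
      simp only
      by_cases h2 : min k (m - k) ≤ T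
      · rw [if_pos h2, if_neg (by omega)]
        simp
      · rw [if_neg h2, if_pos (by omega)]
        have h3 := abs_im_le (Nat.pos_of_ne_zero h0) hkm
        have h4 := pow_le_pow_left₀ (abs_nonneg _) h3 2
        rw [sq_abs] at h4
        refine h4.trans (le_of_eq ?_)
        ring
  refine (sum_le_sum h1).trans ?_
  rw [← mul_sum]
  have h2 := sum_refl (fun j : ℕ => if T < j then 1 / (j : ℝ) ^ 2 else 0)
    (by simp) (fun j => by
      split_ifs <;> positivity) m
  have h3 := tail_sum hT m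
  have h4 : (0 : ℝ) ≤ 1 / ((max m T : ℕ) : ℝ) := by positivity
  have h5 : ∑ k ∈ range m, (if k = 0 then 0 else
      (fun j : ℕ => if T < j then 1 / (j : ℝ) ^ 2 else 0) (min k (m - k))) ≤ 2 * (1 / (T : ℝ)) := by
    linarith
  calc (m : ℝ) ^ 2 / 16 * _ ≤ (m : ℝ) ^ 2 / 16 * (2 * (1 / (T : ℝ))) :=
        mul_le_mul_of_nonneg_left h5 (by positivity)
    _ = _ := by field_simp; norm_num

end Pool.Agent.H82.CO
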