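import Pool.Agent.H82.CO.Gs
import Pool.Agent.H82.CO.Cot
import Pool.Agent.H82.CO.FS

set_option autoImplicit false

/-!
# Covers for which the elements with fixed points have many conjugates
-/

namespace Pool.Agent.H82.CO

open Finset

variable {G : Type} [Group G] [Fintype G] {N : ℕ}

omit [Fintype G] in
theorem ah_zero {T m : ℕ} (hm : 0 < m) : ah T m 0 = 0 := by
  rw [ah, im_zero hm]
  simp

theorem H32 : ∑ j ∈ range 32, 1 / ((j + 1 : ℕ) : ℝ) ≤ 40586 / 10000 := by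
  norm_num [sum_range_succ]

theorem H3 : ∑ j ∈ range 3, 1 / ((j + 1 : ℕ) : ℝ) = 11 / 6 := by
  norm_num [sum_range_succ]

theorem sum_cj1_ah {L : ℝ} (hL : 0 < L) {c : G} (hc : LargeAt c L) (T : ℕ) :
    ∑ g : G, cj1 (gs (ah T (orderOf c)) c) g ^ 2 ≤ (Nat.card G : ℝ) ^ 2 / L *
      (orderOf c / 2 * ∑ j ∈ range T, 1 / ((j + 1 : ℕ) : ℝ)) ^ 2 := by
  have hm := orderOf_pos c
  refine (sum_cj1_sq_le hL (φ := gs (ah T (orderOf c)) c) (gs_large (ah_zero hm) hc)).trans ?_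
  refine mul_le_mul_of_nonneg_left ?_ (by positivity)
  refine pow_le_pow_left₀ (sum_nonneg fun h _ => abs_nonneg _) ?_ 2
  exact (sum_abs_gs _ c).trans (sum_ah hm)

theorem sum_indIm_large {c : G} (hc : LargeAt c 1000) (hm : 3 ≤ orderOf c) :
    ∑ g : G, indIm c g ^ 2 ≤
      287 / 10000 * (Nat.card G : ℝ) ^ 2 * (1 - 2 * (1 / (orderOf c : ℝ))) ^ 2 := by
  have hm0 := orderOf_pos c
  have hmr : (3 : ℝ) ≤ orderOf c := by exact_mod_cast hm
  have hmp : (0 : ℝ) < orderOf c := by linarith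
  have hn : (0 : ℝ) ≤ (Nat.card G : ℝ) ^ 2 := sq_nonneg _
  by_cases h7 : orderOf c ≤ 7
  · have h1 : ∀ g : G, indIm c g ^ 2 =
        (1 / (orderOf c : ℝ)) ^ 2 * cj1 (gs (ah 3 (orderOf c)) c) g ^ 2 := by
      intro g
      have h2 : ∀ h : G, fIm c h = gs (ah 3 (orderOf c)) c h := by
        intro h
        rw [fIm_eq_gs, gs, gs]
        refine sum_congr rfl fun k hk => ?_
        have hk' := mem_range.1 hk
        rw [ah, if_pos (by omega : min k (orderOf c - k) ≤ 3)]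
      rw [indIm, cj1, mul_pow]
      simp only [h2]
    rw [sum_congr rfl fun g _ => h1 g, ← mul_sum]
    have h3 := sum_cj1_ah (by norm_num : (0 : ℝ) < 1000) hc 3
    rw [H3] at h3
    have h4 : (1 / (orderOf c : ℝ)) ^ 2 * ∑ g : G, cj1 (gs (ah 3 (orderOf c)) c) g ^ 2 ≤
        (Nat.card G : ℝ) ^ 2 * (121 / 144000) := by
      refine (mul_le_mul_of_nonneg_left h3 (by positivity)).trans (le_of_eq ?_)
      field_simp
      norm_num
    refine h4.trans ?_
    have h5 : 1 / (orderOf c : ℝ) ≤ 1 / 3 := one_div_le_one_div_of_le (by norm_num) hmr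
    have h6 : (1 / 3 : ℝ) ^ 2 ≤ (1 - 2 * (1 / (orderOf c : ℝ))) ^ 2 :=
      pow_le_pow_left₀ (by norm_num) (by linarith) 2
    nlinarith [mul_le_mul_of_nonneg_left h6 hn]
  · have h8 : (8 : ℝ) ≤ orderOf c := by exact_mod_cast (by omega : 8 ≤ orderOf c)
    have h1 : ∀ g : G, indIm c g ^ 2 ≤ (1 / (orderOf c : ℝ)) ^ 2 *
        (2 * cj1 (gs (ah 32 (orderOf c)) c) g ^ 2 + 2 * cj1 (gs (at' 32 (orderOf c)) c) g ^ 2) := by
      intro g
      have h2 : ∀ h : G, fIm c h = gs (ah 32 (orderOf c)) c h + gs (at' 32 (orderOf c)) c h := by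
        intro h
        rw [fIm_eq_gs, ← gs_add]
        simp only [← ah_add]
      rw [indIm, mul_pow]
      refine mul_le_mul_of_nonneg_left ?_ (by positivity)
      simp only [h2]
      rw [sum_add_distrib]
      change (cj1 _ g + cj1 _ g) ^ 2 ≤ _
      nlinarith [sq_nonneg (cj1 (gs (ah 32 (orderOf c)) c) g - cj1 (gs (at' 32 (orderOf c)) c) g)]
    refine (sum_le_sum fun g _ => h1 g).trans ?_
    rw [← mul_sum, sum_add_distrib, ← mul_sum, ← mul_sum]
    have h3 := sum_cj1_ah (by norm_num : (0 : ℝ) < 1000) hc 32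
    have h4 : ∑ g : G, cj1 (gs (at' 32 (orderOf c)) c) g ^ 2 ≤
        (Nat.card G : ℝ) ^ 2 * ((orderOf c : ℝ) ^ 2 / 256) := by
      refine (sum_cj1_sq _).trans (mul_le_mul_of_nonneg_left ?_ hn)
      rw [sum_gs_sq]
      refine (sum_at (by norm_num : 0 < 32) hm0).trans (le_of_eq ?_)
      norm_num
    have h5 : (orderOf c / 2 * ∑ j ∈ range 32, 1 / ((j + 1 : ℕ) : ℝ)) ^ 2 ≤
        ((orderOf c : ℝ) / 2 * (40586 / 10000)) ^ 2 := by
      refine pow_le_pow_left₀ (by positivity) ?_ 2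
      exact mul_le_mul_of_nonneg_left H32 (by positivity)
    have h6 := h3.trans (mul_le_mul_of_nonneg_left h5 (by positivity))
    have h7 : (1 / (orderOf c : ℝ)) ^ 2 * (2 * ∑ g : G, cj1 (gs (ah 32 (orderOf c)) c) g ^ 2 +
        2 * ∑ g : G, cj1 (gs (at' 32 (orderOf c)) c) g ^ 2) ≤
        (Nat.card G : ℝ) ^ 2 * (161 / 10000) := by
      have h9 : 2 * ∑ g : G, cj1 (gs (ah 32 (orderOf c)) c) g ^ 2 +
          2 * ∑ g : G, cj1 (gs (at' 32 (orderOf c)) c) g ^ 2 ≤
          (orderOf c : ℝ) ^ 2 * ((Nat.card G : ℝ) ^ 2 * (161 / 10000)) := by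
        have h10 : 0 ≤ (orderOf c : ℝ) ^ 2 * (Nat.card G : ℝ) ^ 2 := by positivity
        nlinarith
      refine (mul_le_mul_of_nonneg_left h9 (by positivity)).trans (le_of_eq ?_)
      field_simp
    refine h7.trans ?_
    have h9 : 1 / (orderOf c : ℝ) ≤ 1 / 8 := one_div_le_one_div_of_le (by norm_num) h8
    have h10 : (3 / 4 : ℝ) ^ 2 ≤ (1 - 2 * (1 / (orderOf c : ℝ))) ^ 2 :=
      pow_le_pow_left₀ (by norm_num) (by linarith) 2
    nlinarith [mul_le_mul_of_nonneg_left h10 hn]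

/-- The imaginary part, with weights. -/
theorem im_sq_le (s : Fin N → G) (hs : ∀ i, s i ≠ 1) (g : G) : (chi s g).im ^ 2 ≤
    (2 * nu s - N) * ∑ i, indIm (s i) g ^ 2 / (1 - 2 * (1 / (orderOf (s i) : ℝ))) := by
  rw [chi_im, W_eq]
  refine sum_sq_le_sum_mul_sum_of_sq_le_mul univ (fun i _ => wt_nonneg s hs i)
    (fun i _ => div_nonneg (sq_nonneg _) (wt_nonneg s hs i)) fun i _ => ?_
  rcases (order_ge s hs i).eq_or_lt with h | h
  · rw [indIm_two h.symm]
    simp
  · have h3 : (2 : ℝ) < orderOf (s i) := by exact_mod_cast h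
    have h4 : 1 / (orderOf (s i) : ℝ) < 1 / 2 := one_div_lt_one_div_of_lt (by norm_num) h3
    rw [mul_div_cancel₀]
    linarith

theorem sum_im_sq_le (s : Fin N → G) (hs : ∀ i, s i ≠ 1) (hc : ∀ i, LargeAt (s i) 1000) :
    ∑ g : G, (chi s g).im ^ 2 ≤ 287 / 10000 * (Nat.card G : ℝ) ^ 2 * (2 * nu s - N) ^ 2 := by
  have hW : 0 ≤ 2 * nu s - N := by
    rw [W_eq]
    exact sum_nonneg fun i _ => wt_nonneg s hs i
  refine (sum_le_sum fun g _ => im_sq_le s hs g).trans ?_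
  rw [← mul_sum, sum_comm]
  have h1 : ∀ i, ∑ g : G, indIm (s i) g ^ 2 / (1 - 2 * (1 / (orderOf (s i) : ℝ))) ≤
      287 / 10000 * (Nat.card G : ℝ) ^ 2 * (1 - 2 * (1 / (orderOf (s i) : ℝ))) := by
    intro i
    rw [← sum_div]
    rcases (order_ge s hs i).eq_or_lt with h | h
    · rw [← h]
      norm_num
    · have h3 : (2 : ℝ) < orderOf (s i) := by exact_mod_cast h
      have h4 : 1 / (orderOf (s i) : ℝ) < 1 / 2 := one_div_lt_one_div_of_lt (by norm_num) h3
      rw [div_le_iff₀ (by linarith)]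
      refine (sum_indIm_large (hc i) h).trans (le_of_eq ?_)
      ring
  refine (mul_le_mul_of_nonneg_left (sum_le_sum fun i _ => h1 i) hW).trans (le_of_eq ?_)
  rw [← mul_sum, ← W_eq]
  ring

theorem indF_le {L : ℝ} (hL : 0 < L) {c : G} (hc : LargeAt c L) (g : G) :
    indF c g ≤ Nat.card G / L := by
  classical
  have hm : (0 : ℝ) < orderOf c := by exact_mod_cast orderOf_pos c
  have h1 : ∑ x : G, fP c (x⁻¹ * g * x) ≤ orderOf c * (Nat.card G / L) := by
    simp only [fP]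
    rw [sum_comm]
    have h2 : ∀ k ∈ range (orderOf c), (∑ x : G,
        if c ^ k = x⁻¹ * g * x ∧ k ≠ 0 then (1 : ℝ) else 0) ≤ Nat.card G / L := by
      intro k hk
      by_cases hk0 : k = 0
      · simp only [hk0, ne_eq, not_true_eq_false, and_false, if_false, sum_const_zero]
        positivity
      · have h3 : c ^ k ≠ 1 := by
          intro h1
          rw [← orderOf_dvd_iff_pow_eq_one] at h1
          exact hk0 (Nat.eq_zero_of_dvd_of_lt h1 (mem_range.1 hk))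
        refine le_trans (le_of_eq ?_) (card_conj_le hL (hc k h3) g)
        refine sum_congr rfl fun x _ => ?_
        simp only [hk0, ne_eq, not_false_eq_true, and_true, eq_comm]
    refine (sum_le_sum h2).trans (le_of_eq ?_)
    rw [sum_const, card_range, nsmul_eq_mul]
  rw [indF, one_div, inv_mul_le_iff₀ hm]
  exact h1

theorem sum_sq_ge (s : Fin N → G) {L : ℝ} (hL : 0 < L) (hc : ∀ i, LargeAt (s i) L)
    (hg : 0 ≤ genus s) :
    -((Nat.card G : ℝ) ^ 2 * (N / (2 * L))) ≤ ∑ g : G, (chi s (g ^ 2)).re := by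
  rw [sum_comp_sq (fun g => (chi s g).re)]
  have hn : (0 : ℝ) ≤ Nat.card G := Nat.cast_nonneg _
  have h1 : ∀ g : G, rt g * (-(Nat.card G * (N / (2 * L)))) ≤ rt g * (chi s g).re := by
    intro g
    have h0 : 0 ≤ rt g := by
      rw [rt]
      exact sum_nonneg fun u _ => by split_ifs <;> norm_num
    refine mul_le_mul_of_nonneg_left ?_ h0
    by_cases hg1 : g = 1
    · subst hg1
      rw [chi_one, Complex.ofReal_re]
      have : 0 ≤ (Nat.card G : ℝ) * (N / (2 * L)) := by positivity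
      linarith
    · rw [chi_re s hg1]
      have h2 : ∑ i, indF (s i) g ≤ N * (Nat.card G / L) := by
        refine (sum_le_sum fun i _ => indF_le hL (hc i) g).trans (le_of_eq ?_)
        rw [sum_const, card_univ, Fintype.card_fin, nsmul_eq_mul]
      have h3 : (N : ℝ) * (Nat.card G / L) / 2 = Nat.card G * (N / (2 * L)) := by
        field_simp
      linarith
  refine le_trans (le_of_eq ?_) (sum_le_sum fun g _ => h1 g)
  rw [← sum_mul, sum_rt]
  ring

theorem two_card_quadInv (s : Fin N → G) : 2 * Nat.card G * (quadInv s).re =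
    ∑ g : G, (chi s g).re ^ 2 - ∑ g : G, (chi s g).im ^ 2 + ∑ g : G, (chi s (g ^ 2)).re := by
  have hn : (0 : ℝ) < Nat.card G := by exact_mod_cast Nat.card_pos
  have h2 : (1 / (2 * (Nat.card G : ℂ))) = ((1 / (2 * (Nat.card G : ℝ)) : ℝ) : ℂ) := by
    push_cast; rfl
  rw [quadInv, h2, Complex.re_ofReal_mul, Complex.re_sum, ← sum_sub_distrib, ← sum_add_distrib]
  have h3 : ∀ g : G, (chi s g ^ 2 + chi s (g ^ 2)).re =
      (chi s g).re ^ 2 - (chi s g).im ^ 2 + (chi s (g ^ 2)).re := by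
    intro g
    rw [Complex.add_re, sq, Complex.mul_re]
    ring
  rw [sum_congr rfl fun g _ => h3 g]
  field_simp

theorem card_ge (s : Fin N → G) (hs : ∀ i, s i ≠ 1) (hN : 0 < N)
    (hc : ∀ i, LargeAt (s i) 1000) : (2000 : ℝ) ≤ Nat.card G := by
  have h1 := hc ⟨0, hN⟩ 1 (by rw [pow_one]; exact hs _)
  rw [pow_one] at h1
  have h2 : ((Nat.card (Subgroup.centralizer ({s ⟨0, hN⟩} : Set G)) : ℝ)) *
      (Subgroup.centralizer ({s ⟨0, hN⟩} : Set G)).index = Nat.card G := by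
    exact_mod_cast (Subgroup.centralizer ({s ⟨0, hN⟩} : Set G)).card_mul_index
  have h3 : (2 : ℝ) ≤ Nat.card (Subgroup.centralizer ({s ⟨0, hN⟩} : Set G)) := by
    have h4 : s ⟨0, hN⟩ ∈ Subgroup.centralizer ({s ⟨0, hN⟩} : Set G) := by
      rw [Subgroup.mem_centralizer_iff]
      intro y hy
      rw [Set.mem_singleton_iff.1 hy]
    have h5 : Nontrivial (Subgroup.centralizer ({s ⟨0, hN⟩} : Set G)) :=
      ⟨⟨⟨_, h4⟩, 1, fun h => hs ⟨0, hN⟩ (congrArg Subtype.val h)⟩⟩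
    exact_mod_cast Finite.one_lt_card_iff_nontrivial.2 h5
  rw [← h2]
  nlinarith

/-- The inequality. -/
theorem large_ineq (s : Fin N → G) (hs : ∀ i, s i ≠ 1) (hN : 4 ≤ N)
    (hc : ∀ i, LargeAt (s i) 1000) :
    (Nat.card G : ℝ) * ((2 * nu s - N + (N - 4)) ^ 2 / 16 - N / 2000 -
      287 / 10000 * (2 * nu s - N) ^ 2) ≤ 2 * (quadInv s).re := by
  have hn := card_ge s hs (by omega) hc
  have hN' : (4 : ℝ) ≤ N := by exact_mod_cast hN
  have hW : 0 ≤ 2 * nu s - N := by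
    rw [W_eq]
    exact sum_nonneg fun i _ => wt_nonneg s hs i
  have hg := genus_eq s
  obtain ⟨W, hWe⟩ : ∃ W, W = 2 * nu s - N := ⟨_, rfl⟩
  obtain ⟨n, hne⟩ : ∃ n : ℝ, n = Nat.card G := ⟨_, rfl⟩
  have h1 := two_card_quadInv s
  have h2 := sum_im_sq_le s hs hc
  have hgn : genus s = 1 + n * (W + (N - 4)) / 4 := by rw [hg, hWe, hne]; ring
  have hgp : 0 ≤ n * (W + (N - 4)) := mul_nonneg (by linarith) (by linarith)
  have h3 := sum_sq_ge s (by norm_num : (0 : ℝ) < 1000) hc (by rw [hgn]; linarith)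
  have h4 : genus s ^ 2 ≤ ∑ g : G, (chi s g).re ^ 2 := by
    have h7 : (chi s 1).re = genus s := by rw [chi_one, Complex.ofReal_re]
    rw [← h7]
    exact single_le_sum (f := fun g : G => (chi s g).re ^ 2)
      (fun g _ => sq_nonneg _) (mem_univ (1 : G))
  have h5 : (n * (W + (N - 4))) ^ 2 / 16 ≤ genus s ^ 2 := by
    rw [hgn]
    nlinarith
  rw [← hne, ← hWe] at h2
  rw [← hne] at h1 h3 hn ⊢
  rw [← hWe]
  have hn0 : 0 < n := by linarith
  refine le_of_mul_le_mul_left ?_ hn0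
  nlinarith

theorem large_main (s : Fin N → G) (hs : ∀ i, s i ≠ 1) (hN : 4 ≤ N) (hg : 1 < genus s)
    (hc : ∀ i, LargeAt (s i) 1000) :
    (N : ℝ) - 3 < (quadInv s).re ∧ (Nat.card G : ℝ) / 1200 ≤ (quadInv s).re := by
  have hn := card_ge s hs (by omega) hc
  have hI := large_ineq s hs hN hc
  have hW : 0 ≤ 2 * nu s - N := by
    rw [W_eq]
    exact sum_nonneg fun i _ => wt_nonneg s hs i
  have hge := genus_eq s
  obtain ⟨W, hWe⟩ : ∃ W, W = 2 * nu s - N := ⟨_, rfl⟩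
  obtain ⟨n, hne⟩ : ∃ n : ℝ, n = Nat.card G := ⟨_, rfl⟩
  rcases hN.eq_or_lt with h4 | h5
  · have hN4 : (N : ℝ) = 4 := by rw [← h4]; norm_num
    have hW3 : 1 / 3 ≤ 2 * nu s - N := by
      by_contra hlt
      push Not at hlt
      have hz : ∀ i, orderOf (s i) = 2 := by
        intro i
        by_contra h2
        have h3 : (3 : ℝ) ≤ orderOf (s i) := by
          exact_mod_cast (by have := order_ge s hs i; omega : 3 ≤ orderOf (s i))
        have h5 : 1 / (orderOf (s i) : ℝ) ≤ 1 / 3 := one_div_le_one_div_of_le (by norm_num) h3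
        have h6 := W_ge s hs i
        linarith
      have hnu : nu s = 2 := by
        rw [nu]
        simp only [hz]
        rw [sum_const, card_univ, Fintype.card_fin, nsmul_eq_mul, hN4]
        norm_num
      rw [hge, hnu] at hg
      linarith
    rw [← hWe] at hI hW3
    rw [← hne] at hI hn ⊢
    rw [hN4] at hI ⊢
    have h6 : (1 / 3 : ℝ) ^ 2 ≤ W ^ 2 := pow_le_pow_left₀ (by norm_num) hW3 2
    have h7 : (17 / 10000 : ℝ) ≤ (W + (4 - 4)) ^ 2 / 16 - 4 / 2000 - 287 / 10000 * W ^ 2 := by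
      nlinarith
    have h8 : n * (17 / 10000) ≤ 2 * (quadInv s).re :=
      (mul_le_mul_of_nonneg_left h7 (by linarith)).trans hI
    constructor <;> linarith
  · have hN5 : (5 : ℝ) ≤ N := by exact_mod_cast h5
    rw [← hWe] at hI hW
    rw [← hne] at hI hn ⊢
    obtain ⟨M, hM⟩ : ∃ M : ℝ, M = N - 4 := ⟨_, rfl⟩
    have hNM : (N : ℝ) = M + 4 := by linarith
    have hM1 : 1 ≤ M := by linarith
    rw [hNM] at hI ⊢
    have h6 : M ^ 2 / 16 - (M + 4) / 2000 ≤
        (W + (M + 4 - 4)) ^ 2 / 16 - (M + 4) / 2000 - 287 / 10000 * W ^ 2 := by nlinarith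
    have h7 : n * (M ^ 2 / 16 - (M + 4) / 2000) ≤ 2 * (quadInv s).re :=
      (mul_le_mul_of_nonneg_left h6 (by linarith)).trans hI
    have h8 : (M * (1 / 16 - 5 / 2000)) ≤ M ^ 2 / 16 - (M + 4) / 2000 := by nlinarith
    have h9 : n * (M * (1 / 16 - 5 / 2000)) ≤ 2 * (quadInv s).re :=
      (mul_le_mul_of_nonneg_left h8 (by linarith)).trans h7
    have h10 : 2000 * M ≤ n * M := mul_le_mul_of_nonneg_right hn (by linarith)
    have h11 : n ≤ n * M := le_mul_of_one_le_right (by linarith) hM1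
    constructor <;> nlinarith

end Pool.Agent.H82.CO
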