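import Mathlib

set_option autoImplicit false

/-!
# Galois covers of the projective line: invariant quadrics

Let `G` be a finite group and let `C → ℙ¹` be a Galois cover with group `G`, branched over `N`
points, with local monodromies `s 0, …, s (N - 1)`, elements of `G` different from `1` (they
generate `G` and their product is `1`; this is not used). By the theorem of Chevalley and Weil the
character of the representation of `G` on the holomorphic differentials `H⁰(C, K)` (or on its dual)
is `chi s`: the trivial character, minus the regular one, plus the sum over the branch points of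
the characters induced from the cyclic groups generated by the `s i`, with the multiplicity `a / m`
at the `a`-th character, `m` the order of `s i`. `quadInv s` and `extInv s` are the dimensions of
the spaces of invariants of `G` in the symmetric and in the exterior square of `H⁰(C, K)`.
-/

namespace Pool.Agent.H82.CO

open Finset

/-- `exp (2πi / m)` -/
noncomputable def zeta (m : ℕ) : ℂ := Complex.exp (2 * Real.pi * Complex.I / m)

/-- The value at `g ^ k` of the function `∑_{a < m} (a / m) ψ ^ a` on the cyclic group generated by an
element `g` of order `m`, where `ψ` is the character with `ψ g = exp (2πi / m)`. -/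
noncomputable def eps (m k : ℕ) : ℂ := ∑ a ∈ range m, ((a : ℂ) / m) * zeta m ^ (a * k)

variable {G : Type} [Group G] [Fintype G] {N : ℕ}

open Classical in
/-- The character of `H⁰(C, K)`: `1 - (regular character) +` the sum of the functions induced from
the cyclic groups generated by the local monodromies. -/
noncomputable def chi (s : Fin N → G) (g : G) : ℂ :=
  1 - (if g = 1 then (Nat.card G : ℂ) else 0) +
    ∑ i, (1 / (orderOf (s i) : ℂ)) * ∑ x : G, ∑ k ∈ range (orderOf (s i)),
      if x * s i ^ k * x⁻¹ = g then eps (orderOf (s i)) k else 0

/-- The genus of `C`, by the formula of Riemann and Hurwitz. -/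
noncomputable def genus (s : Fin N → G) : ℝ :=
  1 + (Nat.card G : ℝ) * (N - 2 - ∑ i, 1 / (orderOf (s i) : ℝ)) / 2

/-- `ν`, the sum of the `1 - 1 / m_i`, `m_i` the order of `s i`. -/
noncomputable def nu (s : Fin N → G) : ℝ := ∑ i, (1 - 1 / (orderOf (s i) : ℝ))

/-- The dimension of the space of `G`-invariants in the symmetric square of `H⁰(C, K)`. -/
noncomputable def quadInv (s : Fin N → G) : ℂ :=
  (1 / (2 * (Nat.card G : ℂ))) * ∑ g : G, (chi s g ^ 2 + chi s (g ^ 2))

/-- The dimension of the space of `G`-invariants in the exterior square of `H⁰(C, K)`. -/
noncomputable def extInv (s : Fin N → G) : ℂ :=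
  (1 / (2 * (Nat.card G : ℂ))) * ∑ g : G, (chi s g ^ 2 - chi s (g ^ 2))

end Pool.Agent.H82.CO
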