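import Mathlib

set_option autoImplicit false

/-!
# Groups without small conjugacy classes
-/

namespace Pool.Agent.H82.CO

/-- If every nontrivial normal subgroup has a trivial centralizer and the group is large, then all
conjugacy classes but that of `1` are large. -/
theorem large_of_core {G : Type} [Group G] [Fintype G]
    (hM : ∀ M : Subgroup G, M.Normal → M ≠ ⊥ → Subgroup.centralizer (M : Set G) = ⊥)
    (hG : Nat.factorial 999 < Nat.card G) {g : G} (hg : g ≠ 1) :
    1000 ≤ (Subgroup.centralizer ({g} : Set G)).index := by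
  by_contra hlt
  have hlt' : (Subgroup.centralizer ({g} : Set G)).index ≤ 999 := by omega
  set C := Subgroup.centralizer ({g} : Set G) with hC
  by_cases hK : C.normalCore = ⊥
  · have h1 : Function.Injective (MulAction.toPermHom G (G ⧸ C)) := by
      rw [← MonoidHom.ker_eq_bot_iff, ← Subgroup.normalCore_eq_ker, hK]
    have h2 : Nat.card G ≤ Nat.card (Equiv.Perm (G ⧸ C)) := Nat.card_le_card_of_injective _ h1
    rw [Nat.card_perm] at h2
    have h3 : Nat.card (G ⧸ C) = C.index := rfl
    rw [h3] at h2
    exact absurd (h2.trans (Nat.factorial_le hlt')) (not_le.2 hG)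
  · have h1 := hM C.normalCore inferInstance hK
    have h2 : g ∈ Subgroup.centralizer (C.normalCore : Set G) := by
      rw [Subgroup.mem_centralizer_iff]
      intro x hx
      have hx' : x ∈ C := C.normalCore_le hx
      rw [hC, Subgroup.mem_centralizer_iff] at hx'
      exact (hx' g rfl).symm
    rw [h1, Subgroup.mem_bot] at h2
    exact hg h2

/-- The general form. -/
theorem exists_normal_of_small {G : Type} [Group G] [Fintype G] {g : G} (hg : g ≠ 1) {B : ℕ}
    (hB : (Subgroup.centralizer ({g} : Set G)).index ≤ B) :
    Nat.card G ≤ Nat.factorial B ∨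
      ∃ M : Subgroup G, M.Normal ∧ M ≠ ⊥ ∧ Subgroup.centralizer (M : Set G) ≠ ⊥ := by
  set C := Subgroup.centralizer ({g} : Set G) with hC
  by_cases hK : C.normalCore = ⊥
  · left
    have h1 : Function.Injective (MulAction.toPermHom G (G ⧸ C)) := by
      rw [← MonoidHom.ker_eq_bot_iff, ← Subgroup.normalCore_eq_ker, hK]
    have h2 : Nat.card G ≤ Nat.card (Equiv.Perm (G ⧸ C)) := Nat.card_le_card_of_injective _ h1
    rw [Nat.card_perm] at h2
    have h3 : Nat.card (G ⧸ C) = C.index := rfl
    rw [h3] at h2
    exact h2.trans (Nat.factorial_le hB)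
  · right
    refine ⟨C.normalCore, inferInstance, hK, fun h1 => ?_⟩
    have h2 : g ∈ Subgroup.centralizer (C.normalCore : Set G) := by
      rw [Subgroup.mem_centralizer_iff]
      intro x hx
      have hx' : x ∈ C := C.normalCore_le hx
      rw [hC, Subgroup.mem_centralizer_iff] at hx'
      exact (hx' g rfl).symm
    rw [h1, Subgroup.mem_bot] at h2
    exact hg h2

end Pool.Agent.H82.CO
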