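import Pool.Agent.H82.CO.Five

set_option autoImplicit false

/-!
# Functions supported on a cyclic group, and groups with large conjugacy classes
-/

namespace Pool.Agent.H82.CO

open Finset

variable {G : Type} [Group G] [Fintype G] {N : ℕ}

open Classical in
/-- The function with value `a k` at `c ^ k`, `k < orderOf c`, zero elsewhere. -/
noncomputable def gs (a : ℕ → ℝ) (c h : G) : ℝ :=
  ∑ k ∈ range (orderOf c), if c ^ k = h then a k else 0

/-- `∑_x φ (x⁻¹ g x)` -/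
noncomputable def cj1 (φ : G → ℝ) (g : G) : ℝ := ∑ x : G, φ (x⁻¹ * g * x)

omit [Fintype G] in
theorem gs_pow (a : ℕ → ℝ) (c : G) {k : ℕ} (hk : k < orderOf c) : gs a c (c ^ k) = a k := by
  classical
  rw [gs, sum_eq_single k]
  · rw [if_pos rfl]
  · intro j hj hjk
    rw [if_neg]
    intro h
    exact hjk (pow_injOn_Iio_orderOf (Set.mem_Iio.2 (mem_range.1 hj)) (Set.mem_Iio.2 hk) h)
  · intro h
    exact absurd (mem_range.2 hk) h

theorem gs_one (a : ℕ → ℝ) (c : G) : gs a c 1 = a 0 := by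
  have := gs_pow a c (orderOf_pos c)
  rwa [pow_zero] at this

omit [Fintype G] in
theorem fIm_eq_gs (c h : G) : fIm c h = gs (fun k => (eps (orderOf c) k).im) c h := rfl

omit [Fintype G] in
theorem gs_add (a b : ℕ → ℝ) (c h : G) :
    gs (fun k => a k + b k) c h = gs a c h + gs b c h := by
  rw [gs, gs, gs, ← sum_add_distrib]
  refine sum_congr rfl fun k _ => ?_
  split_ifs <;> simp

theorem sum_gs_sq (a : ℕ → ℝ) (c : G) :
    ∑ h : G, gs a c h ^ 2 = ∑ k ∈ range (orderOf c), a k ^ 2 := by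
  classical
  have h1 : ∀ h : G, gs a c h ^ 2 = ∑ k ∈ range (orderOf c),
      if c ^ k = h then a k * gs a c (c ^ k) else 0 := by
    intro h
    rw [sq]
    conv_lhs => arg 1; rw [gs]
    rw [sum_mul]
    refine sum_congr rfl fun k _ => ?_
    split_ifs with hk
    · rw [hk]
    · rw [zero_mul]
  rw [sum_congr rfl fun h _ => h1 h, sum_comm]
  refine sum_congr rfl fun k hk => ?_
  rw [sum_ite_eq, if_pos (mem_univ _), gs_pow a c (mem_range.1 hk)]
  ring

theorem sum_abs_gs (a : ℕ → ℝ) (c : G) :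
    ∑ h : G, |gs a c h| ≤ ∑ k ∈ range (orderOf c), |a k| := by
  classical
  have h1 : ∀ h : G, |gs a c h| ≤ ∑ k ∈ range (orderOf c), if c ^ k = h then |a k| else 0 := by
    intro h
    rw [gs]
    refine (abs_sum_le_sum_abs _ _).trans (le_of_eq ?_)
    refine sum_congr rfl fun k _ => ?_
    split_ifs <;> simp
  refine (sum_le_sum fun h _ => h1 h).trans (le_of_eq ?_)
  rw [sum_comm]
  refine sum_congr rfl fun k _ => ?_
  rw [sum_ite_eq, if_pos (mem_univ _)]

/-- Cauchy-Schwarz. -/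
theorem sum_cj1_sq (φ : G → ℝ) :
    ∑ g : G, cj1 φ g ^ 2 ≤ (Nat.card G : ℝ) ^ 2 * ∑ h : G, φ h ^ 2 := by
  have h1 : ∀ g : G, cj1 φ g ^ 2 ≤ Nat.card G * ∑ x : G, φ (x⁻¹ * g * x) ^ 2 := by
    intro g
    have := sq_sum_le_card_mul_sum_sq (s := (univ : Finset G)) (f := fun x => φ (x⁻¹ * g * x))
    rwa [card_univ, ← Nat.card_eq_fintype_card] at this
  refine (sum_le_sum fun g _ => h1 g).trans (le_of_eq ?_)
  rw [← mul_sum, sum_comm]
  have h2 : ∀ x : G, ∑ g : G, φ (x⁻¹ * g * x) ^ 2 = ∑ h : G, φ h ^ 2 := by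
    intro x
    exact Fintype.sum_equiv (MulAut.conj x⁻¹).toEquiv _ _ fun g => by simp
  rw [sum_congr rfl fun x _ => h2 x, sum_const, card_univ, nsmul_eq_mul,
    ← Nat.card_eq_fintype_card]
  ring

/-- The conjugacy classes of the powers of `c` other than `1` have at least `L` elements. -/
def LargeAt (c : G) (L : ℝ) : Prop :=
  ∀ k : ℕ, c ^ k ≠ 1 → L ≤ ((Subgroup.centralizer ({c ^ k} : Set G)).index : ℝ)

open Classical in
theorem card_conj_le {L : ℝ} (hL : 0 < L) {h : G}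
    (hh : L ≤ ((Subgroup.centralizer ({h} : Set G)).index : ℝ)) (g : G) :
    (∑ x : G, if x⁻¹ * g * x = h then (1 : ℝ) else 0) ≤ Nat.card G / L := by
  have h1 : (∑ x : G, if x⁻¹ * g * x = h then (1 : ℝ) else 0) ≤
      (Nat.card (Subgroup.centralizer ({h} : Set G)) : ℝ) := by
    rw [sum_boole]
    norm_cast
    have hc : Nat.card (Subgroup.centralizer {h} : Subgroup G) =
        (univ.filter fun x : G => x ∈ Subgroup.centralizer ({h} : Set G)).card := by
      rw [Nat.card_eq_fintype_card, Fintype.card_subtype]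
    rw [hc]
    by_cases he : ∃ a₀ : G, a₀⁻¹ * g * a₀ = h
    · obtain ⟨a₀, ha₀⟩ := he
      refine card_le_card_of_injOn (fun a => a₀⁻¹ * a) ?_ ?_
      · intro a ha
        simp only [coe_filter, mem_univ, true_and, Set.mem_ofPred_eq] at ha ⊢
        rw [Subgroup.mem_centralizer_iff]
        intro y hy
        rw [Set.mem_singleton_iff] at hy
        subst hy
        have h1 : g * a = a * y := by rw [← ha]; group
        have h2 : y * a₀⁻¹ = a₀⁻¹ * g := by rw [← ha₀]; group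
        rw [← mul_assoc, h2, mul_assoc, h1, mul_assoc]
      · intro a _ b _ hab
        exact mul_left_cancel hab
    · have h0 : (univ.filter fun a : G => a⁻¹ * g * a = h) = ∅ := by
        rw [filter_eq_empty_iff]
        intro a _ ha
        exact he ⟨a, ha⟩
      rw [h0, card_empty]
      exact Nat.zero_le _
  refine h1.trans ?_
  rw [le_div_iff₀ hL]
  have h2 : ((Nat.card (Subgroup.centralizer ({h} : Set G)) : ℝ)) *
      (Subgroup.centralizer ({h} : Set G)).index = Nat.card G := by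
    exact_mod_cast (Subgroup.centralizer ({h} : Set G)).card_mul_index
  rw [← h2]
  exact mul_le_mul_of_nonneg_left hh (Nat.cast_nonneg _)

theorem abs_cj1_le {L : ℝ} (hL : 0 < L) {φ : G → ℝ}
    (hφ : ∀ h, φ h ≠ 0 → L ≤ ((Subgroup.centralizer ({h} : Set G)).index : ℝ)) (g : G) :
    |cj1 φ g| ≤ Nat.card G / L * ∑ h : G, |φ h| := by
  classical
  have h2 : |cj1 φ g| ≤ ∑ x : G, |φ (x⁻¹ * g * x)| := abs_sum_le_sum_abs _ _
  have h3 : ∀ x : G, |φ (x⁻¹ * g * x)| =
      ∑ h : G, (if x⁻¹ * g * x = h then (1 : ℝ) else 0) * |φ h| := by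
    intro x
    rw [sum_eq_single (x⁻¹ * g * x)]
    · rw [if_pos rfl, one_mul]
    · intro h _ hh
      rw [if_neg (Ne.symm hh), zero_mul]
    · intro h
      exact absurd (mem_univ _) h
  rw [sum_congr rfl fun x _ => h3 x, sum_comm] at h2
  refine h2.trans ?_
  rw [mul_sum]
  refine sum_le_sum fun h _ => ?_
  rw [← sum_mul]
  by_cases h0 : φ h = 0
  · rw [h0]
    simp
  · exact mul_le_mul_of_nonneg_right (card_conj_le hL (hφ h h0) g) (abs_nonneg _)

/-- The estimate by the maximum and the sum. -/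
theorem sum_cj1_sq_le {L : ℝ} (hL : 0 < L) {φ : G → ℝ}
    (hφ : ∀ h, φ h ≠ 0 → L ≤ ((Subgroup.centralizer ({h} : Set G)).index : ℝ)) :
    ∑ g : G, cj1 φ g ^ 2 ≤ (Nat.card G : ℝ) ^ 2 / L * (∑ h : G, |φ h|) ^ 2 := by
  have h2 : ∑ g : G, |cj1 φ g| ≤ Nat.card G * ∑ h : G, |φ h| := by
    refine (sum_le_sum fun g _ => abs_sum_le_sum_abs _ _).trans (le_of_eq ?_)
    rw [sum_comm]
    have h3 : ∀ x : G, ∑ g : G, |φ (x⁻¹ * g * x)| = ∑ h : G, |φ h| := by
      intro x
      exact Fintype.sum_equiv (MulAut.conj x⁻¹).toEquiv _ _ fun g => by simp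
    rw [sum_congr rfl fun x _ => h3 x, sum_const, card_univ, nsmul_eq_mul,
      ← Nat.card_eq_fintype_card]
  have h4 : 0 ≤ ∑ h : G, |φ h| := sum_nonneg fun h _ => abs_nonneg _
  have h5 : (0 : ℝ) ≤ Nat.card G := Nat.cast_nonneg _
  calc ∑ g : G, cj1 φ g ^ 2 ≤ ∑ g : G, (Nat.card G / L * ∑ h : G, |φ h|) * |cj1 φ g| := by
        refine sum_le_sum fun g _ => ?_
        rw [← sq_abs, sq]
        exact mul_le_mul_of_nonneg_right (abs_cj1_le hL hφ g) (abs_nonneg _)
    _ = (Nat.card G / L * ∑ h : G, |φ h|) * ∑ g : G, |cj1 φ g| := by rw [← mul_sum]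
    _ ≤ (Nat.card G / L * ∑ h : G, |φ h|) * (Nat.card G * ∑ h : G, |φ h|) :=
        mul_le_mul_of_nonneg_left h2 (mul_nonneg (div_nonneg h5 hL.le) h4)
    _ = _ := by ring

omit [Fintype G] in
theorem gs_ne_zero {a : ℕ → ℝ} {c h : G} (hh : gs a c h ≠ 0) :
    ∃ k, k < orderOf c ∧ a k ≠ 0 ∧ c ^ k = h := by
  classical
  by_contra hne
  push Not at hne
  apply hh
  rw [gs]
  refine sum_eq_zero fun k hk => ?_
  split_ifs with h1
  · by_contra h2
    exact hne k (mem_range.1 hk) h2 h1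
  · rfl

omit [Fintype G] in
theorem gs_large {a : ℕ → ℝ} (h0 : a 0 = 0) {c : G} {L : ℝ} (hc : LargeAt c L) (h : G)
    (hh : gs a c h ≠ 0) : L ≤ ((Subgroup.centralizer ({h} : Set G)).index : ℝ) := by
  obtain ⟨k, hk, hak, rfl⟩ := gs_ne_zero hh
  refine hc k fun h1 => hak ?_
  rw [← orderOf_dvd_iff_pow_eq_one] at h1
  rw [Nat.eq_zero_of_dvd_of_lt h1 hk, h0]

end Pool.Agent.H82.CO
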