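import Pool.Agent.H82.CO.Fix

set_option autoImplicit false

/-!
# The estimate at one branch point

Authors: helper82, helper92.
-/

namespace Pool.Agent.H82.CO

open Finset

variable {G : Type} [Group G] [Fintype G] {N : ℕ}

open Classical in
/-- The indicator function of `{c, c⁻¹}`. -/
noncomputable def fQ (c h : G) : ℝ := if h = c ∨ h = c⁻¹ then 1 else 0

omit [Fintype G] in
theorem fQ_nonneg (c h : G) : 0 ≤ fQ c h := by
  rw [fQ]
  split_ifs <;> norm_num

theorem inv_eq_pow (c : G) : c⁻¹ = c ^ (orderOf c - 1) := by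
  rw [eq_comm]
  apply eq_inv_of_mul_eq_one_left
  rw [← pow_succ, Nat.sub_add_cancel (orderOf_pos c), pow_orderOf_eq_one]

theorem fQ_le_fP {c : G} (hc : 2 ≤ orderOf c) (h : G) : fQ c h ≤ fP c h := by
  rw [fQ]
  split_ifs with h1
  · rcases h1 with rfl | rfl
    · have := fP_pow h (k := 1) (by omega) one_ne_zero
      rw [pow_one] at this
      exact this.ge
    · have := fP_pow c (k := orderOf c - 1) (by omega) (by omega)
      rw [← inv_eq_pow] at this
      exact this.ge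
  · rcases fP_cases c h with h2 | h2
    · exact h2.1.ge
    · rw [h2]; norm_num

theorem fIm_ge {c : G} (hc : 2 ≤ orderOf c) {b : ℝ}
    (hb : ∀ k, k = 1 ∨ k = orderOf c - 1 → b ≤ (eps (orderOf c) k).im ^ 2) (h : G) :
    b * fQ c h ≤ fIm c h ^ 2 := by
  rw [fQ]
  split_ifs with h1
  · rw [mul_one]
    rcases h1 with rfl | rfl
    · have := fIm_pow h (k := 1) (by omega)
      rw [pow_one] at this
      rw [this]
      exact hb 1 (Or.inl rfl)
    · have := fIm_pow c (k := orderOf c - 1) (by omega)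
      rw [← inv_eq_pow] at this
      rw [this]
      exact hb _ (Or.inr rfl)
  · rw [mul_zero]
    exact sq_nonneg _

theorem sum_fQ {c : G} (hc : 3 ≤ orderOf c) : ∑ h : G, fQ c h = 2 := by
  classical
  have hne : c ≠ c⁻¹ := by
    intro h
    have h1 : c ^ 2 = 1 := by rw [sq]; nth_rewrite 2 [h]; exact mul_inv_cancel c
    have := Nat.le_of_dvd (by norm_num) (orderOf_dvd_of_pow_eq_one h1)
    omega
  have h1 : ∀ h : G, fQ c h = (if h = c then 1 else 0) + if h = c⁻¹ then 1 else 0 := by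
    intro h
    rw [fQ]
    by_cases h2 : h = c
    · subst h2
      simp [hne]
    · simp [h2]
  rw [sum_congr rfl fun h _ => h1 h, sum_add_distrib]
  simp
  norm_num

/-- `a` stands for `W / w`. -/
theorem key {c : G} (hc : 3 ≤ orderOf c) {a : ℝ} (ha : 0 ≤ a)
    (hb : ∀ k, k = 1 ∨ k = orderOf c - 1 → 1 / 4 ≤ a * (eps (orderOf c) k).im ^ 2) :
    ∑ g : G, (a * indIm c g ^ 2 - indF c g ^ 2 / 4) ≤
      (Nat.card G : ℝ) ^ 2 * (a * (((orderOf c : ℝ) - 1) * (orderOf c - 2) / (12 * orderOf c ^ 2)) -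
        1 / (2 * orderOf c ^ 2)) := by
  have hm : (0 : ℝ) < orderOf c := by exact_mod_cast orderOf_pos c
  have ha0 : 0 < a := by
    rcases ha.lt_or_eq with h | h
    · exact h
    · have := hb 1 (Or.inl rfl)
      rw [← h] at this
      norm_num at this
  have h1 : ∀ g : G, a * indIm c g ^ 2 - indF c g ^ 2 / 4 ≤
      (1 / (orderOf c : ℝ)) ^ 2 * (Nat.card G *
        (a * ∑ x : G, fIm c (x⁻¹ * g * x) ^ 2 - (∑ x : G, fQ c (x⁻¹ * g * x)) / 4)) := by
    intro g
    obtain ⟨A, hA⟩ : ∃ A, A = ∑ x : G, fIm c (x⁻¹ * g * x) ^ 2 := ⟨_, rfl⟩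
    obtain ⟨P, hP⟩ : ∃ P, P = ∑ x : G, fP c (x⁻¹ * g * x) := ⟨_, rfl⟩
    obtain ⟨E, hE⟩ : ∃ E, E = ∑ x : G, fQ c (x⁻¹ * g * x) := ⟨_, rfl⟩
    obtain ⟨S, hS⟩ : ∃ S, S = ∑ x : G, fIm c (x⁻¹ * g * x) := ⟨_, rfl⟩
    have i1 : S ^ 2 ≤ P * A := by
      rw [hS, hP, hA]
      refine sum_sq_le_sum_mul_sum_of_sq_le_mul univ (fun x _ => ?_) (fun x _ => sq_nonneg _)
        fun x _ => ?_
      · rcases fP_cases c (x⁻¹ * g * x) with h | h
        · exact h.1.ge
        · rw [h]; norm_num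
      · rcases fP_cases c (x⁻¹ * g * x) with h | h
        · rw [h.1, h.2]; norm_num
        · rw [h, one_mul]
    have i2 : E ≤ P := by
      rw [hE, hP]
      exact sum_le_sum fun x _ => fQ_le_fP (by omega) _
    have i3 : P ≤ Nat.card G := by
      rw [hP, Nat.card_eq_fintype_card, ← card_univ, card_eq_sum_ones]
      push_cast
      refine sum_le_sum fun x _ => ?_
      rcases fP_cases c (x⁻¹ * g * x) with h | h
      · rw [h.1]; norm_num
      · rw [h]
    have i4 : 0 ≤ E := by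
      rw [hE]
      exact sum_nonneg fun x _ => fQ_nonneg _ _
    have i5 : E / 4 ≤ a * A := by
      rw [hE, hA, sum_div, mul_sum]
      refine sum_le_sum fun x _ => ?_
      have h2 := fIm_ge (c := c) (by omega) (b := 1 / (4 * a)) (fun k hk => by
        rw [div_le_iff₀ (by positivity)]
        have := hb k hk
        linarith) (x⁻¹ * g * x)
      have h3 := mul_le_mul_of_nonneg_left h2 ha
      have h4 : a * (1 / (4 * a) * fQ c (x⁻¹ * g * x)) = fQ c (x⁻¹ * g * x) / 4 := by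
        field_simp
      rw [h4] at h3
      exact h3
    rw [indIm, indF, ← hA, ← hP, ← hE, ← hS]
    have i6 : a * S ^ 2 - P ^ 2 / 4 ≤ Nat.card G * (a * A - E / 4) := by
      have j1 : a * S ^ 2 ≤ a * (P * A) := mul_le_mul_of_nonneg_left i1 ha
      have j2 : P * E ≤ P * P := mul_le_mul_of_nonneg_left i2 (i4.trans i2)
      have j3 : P * (a * A - E / 4) ≤ Nat.card G * (a * A - E / 4) :=
        mul_le_mul_of_nonneg_right i3 (by linarith)
      nlinarith
    have h5 := mul_le_mul_of_nonneg_left i6 (sq_nonneg (1 / (orderOf c : ℝ)))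
    calc a * (1 / (orderOf c : ℝ) * S) ^ 2 - (1 / (orderOf c : ℝ) * P) ^ 2 / 4 =
        (1 / (orderOf c : ℝ)) ^ 2 * (a * S ^ 2 - P ^ 2 / 4) := by ring
      _ ≤ _ := h5
  refine (sum_le_sum fun g _ => h1 g).trans (le_of_eq ?_)
  rw [← mul_sum, ← mul_sum, sum_sub_distrib, ← mul_sum, ← sum_div, sum_comm (f := fun g x =>
    fIm c (x⁻¹ * g * x) ^ 2), sum_comm (f := fun g x => fQ c (x⁻¹ * g * x))]
  have h2 : ∀ x : G, ∑ g : G, fIm c (x⁻¹ * g * x) ^ 2 = ∑ h : G, fIm c h ^ 2 := by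
    intro x
    exact Fintype.sum_equiv (MulAut.conj x⁻¹).toEquiv _ _ fun g => by simp
  have h3 : ∀ x : G, ∑ g : G, fQ c (x⁻¹ * g * x) = ∑ h : G, fQ c h := by
    intro x
    exact Fintype.sum_equiv (MulAut.conj x⁻¹).toEquiv _ _ fun g => by simp
  rw [sum_congr rfl fun x _ => h2 x, sum_congr rfl fun x _ => h3 x, sum_const, sum_const, card_univ,
    nsmul_eq_mul, nsmul_eq_mul, sum_fIm_sq, sum_fQ hc, ← Nat.card_eq_fintype_card]
  field_simp
  ring

end Pool.Agent.H82.CO
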