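import Pool.Agent.H82.CO.Eps

set_option autoImplicit false

/-!
# The imaginary part of the character
-/

namespace Pool.Agent.H82.CO

open Finset

variable {G : Type} [Group G] [Fintype G] {N : ℕ}

open Classical in
/-- The imaginary part of `eps`, as a function on `G` supported on the powers of `c`. -/
noncomputable def fIm (c : G) (h : G) : ℝ :=
  ∑ k ∈ range (orderOf c), if c ^ k = h then (eps (orderOf c) k).im else 0

omit [Fintype G] in
theorem fIm_pow (c : G) {k : ℕ} (hk : k < orderOf c) :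
    fIm c (c ^ k) = (eps (orderOf c) k).im := by
  classical
  rw [fIm, sum_eq_single k]
  · rw [if_pos rfl]
  · intro j hj hjk
    rw [if_neg]
    intro h
    exact hjk (pow_injOn_Iio_orderOf (Set.mem_Iio.2 (mem_range.1 hj)) (Set.mem_Iio.2 hk) h)
  · intro h
    exact absurd (mem_range.2 hk) h

theorem sum_fIm_sq (c : G) :
    ∑ h : G, fIm c h ^ 2 = ((orderOf c : ℝ) - 1) * (orderOf c - 2) / 12 := by
  classical
  have h1 : ∀ h : G, fIm c h ^ 2 = ∑ k ∈ range (orderOf c),
      if c ^ k = h then (eps (orderOf c) k).im * fIm c (c ^ k) else 0 := by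
    intro h
    rw [sq]
    conv_lhs => arg 1; rw [fIm]
    rw [sum_mul]
    refine sum_congr rfl fun k _ => ?_
    split_ifs with hk
    · rw [hk]
    · rw [zero_mul]
  rw [sum_congr rfl fun h _ => h1 h, sum_comm]
  have h2 : ∀ k ∈ range (orderOf c),
      (∑ h : G, if c ^ k = h then (eps (orderOf c) k).im * fIm c (c ^ k) else 0) =
      (eps (orderOf c) k).im ^ 2 := by
    intro k hk
    rw [sum_ite_eq, if_pos (mem_univ _), fIm_pow c (mem_range.1 hk)]
    ring
  rw [sum_congr rfl h2, sum_im_sq (orderOf_pos c)]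

/-- The imaginary part of the summand of `chi` which belongs to `c`. -/
noncomputable def indIm (c : G) (g : G) : ℝ := (1 / (orderOf c : ℝ)) * ∑ x : G, fIm c (x⁻¹ * g * x)

theorem chi_im (s : Fin N → G) (g : G) : (chi s g).im = ∑ i, indIm (s i) g := by
  classical
  have h0 : ∀ (p : Prop) [Decidable p] (z : ℂ), (if p then z else 0).im = if p then z.im else 0 := by
    intro p _ z
    split_ifs <;> simp
  rw [chi, Complex.add_im, Complex.sub_im, h0, Complex.im_sum]
  simp only [Complex.one_im, Complex.natCast_im, ite_self, sub_zero, zero_add]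
  refine sum_congr rfl fun i _ => ?_
  have h1 : (1 / (orderOf (s i) : ℂ)) = ((1 / (orderOf (s i) : ℝ) : ℝ) : ℂ) := by push_cast; rfl
  rw [h1, Complex.im_ofReal_mul, indIm]
  congr 1
  rw [Complex.im_sum]
  refine sum_congr rfl fun x _ => ?_
  rw [Complex.im_sum, fIm]
  refine sum_congr rfl fun k _ => ?_
  rw [h0]
  have h2 : x * s i ^ k * x⁻¹ = g ↔ s i ^ k = x⁻¹ * g * x := by
    constructor
    · rintro rfl
      group
    · intro h
      rw [h]
      group
  simp only [h2]

/-- The norm of an induced function. -/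
theorem sum_indIm_sq (c : G) :
    ∑ g : G, indIm c g ^ 2 ≤
      (Nat.card G : ℝ) ^ 2 * (((orderOf c : ℝ) - 1) * (orderOf c - 2) / (12 * orderOf c ^ 2)) := by
  have hm : (0 : ℝ) < orderOf c := by exact_mod_cast orderOf_pos c
  have h1 : ∀ g : G, indIm c g ^ 2 ≤
      (1 / (orderOf c : ℝ)) ^ 2 * (Nat.card G * ∑ x : G, fIm c (x⁻¹ * g * x) ^ 2) := by
    intro g
    rw [indIm, mul_pow]
    refine mul_le_mul_of_nonneg_left ?_ (sq_nonneg _)
    have := sq_sum_le_card_mul_sum_sq (s := (univ : Finset G)) (f := fun x => fIm c (x⁻¹ * g * x))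
    rwa [card_univ, ← Nat.card_eq_fintype_card] at this
  refine (sum_le_sum fun g _ => h1 g).trans (le_of_eq ?_)
  rw [← mul_sum, ← mul_sum, sum_comm]
  have h2 : ∀ x : G, ∑ g : G, fIm c (x⁻¹ * g * x) ^ 2 = ∑ h : G, fIm c h ^ 2 := by
    intro x
    exact Fintype.sum_equiv (MulAut.conj x⁻¹).toEquiv _ _ fun g => by simp
  rw [sum_congr rfl fun x _ => h2 x, sum_const, card_univ, nsmul_eq_mul, sum_fIm_sq,
    ← Nat.card_eq_fintype_card]
  field_simp

theorem sum_chi_im_sq (s : Fin N → G) (hs : ∀ i, s i ≠ 1) :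
    ∑ g : G, (chi s g).im ^ 2 ≤ (Nat.card G : ℝ) ^ 2 * (nu s * (2 * nu s - N) / 12) := by
  have hm : ∀ i, (2 : ℝ) ≤ orderOf (s i) := by
    intro i
    have h1 : 0 < orderOf (s i) := orderOf_pos _
    have h2 : orderOf (s i) ≠ 1 := fun h => hs i (orderOf_eq_one_iff.1 h)
    have : 2 ≤ orderOf (s i) := by omega
    exact_mod_cast this
  have hx : ∀ i, (0 : ℝ) < 1 - 1 / (orderOf (s i) : ℝ) := by
    intro i
    have h1 := hm i
    have : 1 / (orderOf (s i) : ℝ) < 1 := by
      rw [div_lt_one (by linarith)]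
      linarith
    linarith
  have h1 : ∀ g : G, (chi s g).im ^ 2 ≤
      nu s * ∑ i, indIm (s i) g ^ 2 / (1 - 1 / (orderOf (s i) : ℝ)) := by
    intro g
    rw [chi_im, nu]
    refine sum_sq_le_sum_mul_sum_of_sq_le_mul univ (fun i _ => (hx i).le)
      (fun i _ => div_nonneg (sq_nonneg _) (hx i).le) fun i _ => ?_
    rw [mul_div_cancel₀ _ (hx i).ne']
  have hnu : 0 ≤ nu s := sum_nonneg fun i _ => (hx i).le
  refine (sum_le_sum fun g _ => h1 g).trans ?_
  rw [← mul_sum, sum_comm]
  have h2 : ∀ i, ∑ g : G, indIm (s i) g ^ 2 / (1 - 1 / (orderOf (s i) : ℝ)) ≤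
      (Nat.card G : ℝ) ^ 2 * ((2 * (1 - 1 / (orderOf (s i) : ℝ)) - 1) / 12) := by
    intro i
    rw [← sum_div, div_le_iff₀ (hx i)]
    refine (sum_indIm_sq (s i)).trans (le_of_eq ?_)
    have : (orderOf (s i) : ℝ) ≠ 0 := by have := hm i; linarith
    field_simp
    ring
  calc nu s * ∑ i, ∑ g : G, indIm (s i) g ^ 2 / (1 - 1 / (orderOf (s i) : ℝ))
      ≤ nu s * ∑ i, (Nat.card G : ℝ) ^ 2 * ((2 * (1 - 1 / (orderOf (s i) : ℝ)) - 1) / 12) :=
        mul_le_mul_of_nonneg_left (sum_le_sum fun i _ => h2 i) hnu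
    _ = _ := by
      rw [← mul_sum, ← sum_div, sum_sub_distrib, ← mul_sum]
      simp only [sum_const, card_univ, Fintype.card_fin, nsmul_eq_mul, mul_one]
      rw [← nu]
      ring

end Pool.Agent.H82.CO
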